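import Pool.Agent.Q171.RB.Defs

/-!
Green functions: full and killed.
-/

namespace Pool.Agent.Q171.RB

open Finset Filter Topology
open scoped ENNReal

variable {V : Type*} [DecidableEq V] (G : SimpleGraph V) [G.LocallyFinite]

/-- killed transition probabilities -/
noncomputable def prk (W : Finset V) : ℕ → V → V → ℝ
  | 0, y, x => if y ∈ W ∧ y = x then 1 else 0
  | t + 1, y, x => if y ∈ W then (∑ z ∈ G.neighborFinset y, prk W t z x) / G.degree y else 0

lemma pr_nonneg (t : ℕ) (y x : V) : 0 ≤ pr G t y x := by
  induction t generalizing y with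
  | zero => simp only [pr]; split_ifs <;> norm_num
  | succ t ih =>
    simp only [pr]
    exact div_nonneg (sum_nonneg fun z _ => ih z) (Nat.cast_nonneg _)

lemma prk_nonneg (W : Finset V) (t : ℕ) (y x : V) : 0 ≤ prk G W t y x := by
  induction t generalizing y with
  | zero => simp only [prk]; split_ifs <;> norm_num
  | succ t ih =>
    simp only [prk]
    split_ifs
    · exact div_nonneg (sum_nonneg fun z _ => ih z) (Nat.cast_nonneg _)
    · exact le_rfl

lemma prk_le (W : Finset V) (t : ℕ) (y x : V) : prk G W t y x ≤ pr G t y x := by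
  induction t generalizing y with
  | zero =>
    simp only [prk, pr]
    split_ifs with h1 h2 h2
    · exact le_rfl
    · exact absurd h1.2 h2
    · norm_num
    · exact le_rfl
  | succ t ih =>
    have h := pr_nonneg G (t + 1) y x
    simp only [prk]
    split_ifs
    · simp only [pr]
      exact div_le_div_of_nonneg_right (sum_le_sum fun z _ => ih z) (Nat.cast_nonneg _)
    · exact h

/-- forward recursion -/
lemma pr_forward (t : ℕ) (y x : V) :
    pr G (t + 1) y x = ∑ z ∈ G.neighborFinset x, pr G t y z / G.degree z := by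
  induction t generalizing y with
  | zero =>
    simp only [pr]
    by_cases h : G.Adj y x
    · have h1 : ∑ z ∈ G.neighborFinset y, (if z = x then (1 : ℝ) else 0) = 1 := by
        rw [sum_ite_eq' (G.neighborFinset y) x]
        simp [h]
      have h2 : ∑ z ∈ G.neighborFinset x, (if y = z then (1 : ℝ) else 0) / G.degree z
          = 1 / G.degree y := by
        rw [sum_eq_single y]
        · simp
        · intro b _ hb
          rw [if_neg (Ne.symm hb), zero_div]
        · intro hn
          exact absurd (by simpa using h.symm) hn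
      rw [h1, h2]
    · have h1 : ∑ z ∈ G.neighborFinset y, (if z = x then (1 : ℝ) else 0) = 0 := by
        apply sum_eq_zero
        intro z hz
        rw [if_neg]
        rintro rfl
        exact h (by simpa using hz)
      have h2 : ∑ z ∈ G.neighborFinset x, (if y = z then (1 : ℝ) else 0) / G.degree z = 0 := by
        apply sum_eq_zero
        intro z hz
        rw [if_neg, zero_div]
        rintro rfl
        exact h (by simpa using (by simpa using hz : G.Adj x y).symm)
      rw [h1, h2, zero_div]
  | succ t ih =>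
    have h1 : pr G (t + 1 + 1) y x = (∑ w ∈ G.neighborFinset y, pr G (t + 1) w x) / G.degree y :=
      rfl
    rw [h1]
    simp_rw [ih]
    rw [sum_comm, sum_div]
    refine sum_congr rfl fun z _ => ?_
    have h2 : pr G (t + 1) y z = (∑ w ∈ G.neighborFinset y, pr G t w z) / G.degree y := rfl
    rw [h2, sum_div, sum_div, sum_div]
    refine sum_congr rfl fun w _ => ?_
    ring

lemma green_start_adj {y z : V} (x : V) (h : G.Adj y z) (hy : green G y x ≠ ⊤) :
    green G z x ≠ ⊤ := by
  have hdeg : 0 < G.degree y := (G.degree_pos_iff_exists_adj y).mpr ⟨z, h⟩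
  have h1 : ∀ t, ENNReal.ofReal (pr G t z x)
      ≤ (G.degree y : ℝ≥0∞) * ENNReal.ofReal (pr G (t + 1) y x) := by
    intro t
    have e1 : (G.degree y : ℝ≥0∞) = ENNReal.ofReal (G.degree y : ℝ) := by simp
    rw [e1, ← ENNReal.ofReal_mul (Nat.cast_nonneg _)]
    apply ENNReal.ofReal_le_ofReal
    have h2 : pr G (t + 1) y x = (∑ w ∈ G.neighborFinset y, pr G t w x) / G.degree y := rfl
    have h3 : (0 : ℝ) < G.degree y := by exact_mod_cast hdeg
    rw [h2, mul_div_cancel₀ _ h3.ne']
    exact single_le_sum (f := fun w => pr G t w x) (fun w _ => pr_nonneg G t w x) (by simpa using h)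
  have h2 : green G z x ≤ (G.degree y : ℝ≥0∞) * green G y x := by
    calc green G z x ≤ ∑' t, (G.degree y : ℝ≥0∞) * ENNReal.ofReal (pr G (t + 1) y x) :=
          ENNReal.tsum_le_tsum h1
      _ = (G.degree y : ℝ≥0∞) * ∑' t, ENNReal.ofReal (pr G (t + 1) y x) := ENNReal.tsum_mul_left
      _ ≤ (G.degree y : ℝ≥0∞) * green G y x := by
          gcongr
          exact ENNReal.tsum_comp_le_tsum_of_injective (add_left_injective 1)
            (fun t => ENNReal.ofReal (pr G t y x))
  exact ne_top_of_le_ne_top (ENNReal.mul_ne_top (ENNReal.natCast_ne_top _) hy) h2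

lemma green_end_adj {y x z : V} (h : G.Adj x z) (hy : green G y x ≠ ⊤) :
    green G y z ≠ ⊤ := by
  have hdeg : 0 < G.degree z := (G.degree_pos_iff_exists_adj z).mpr ⟨x, h.symm⟩
  have h1 : ∀ t, ENNReal.ofReal (pr G t y z)
      ≤ (G.degree z : ℝ≥0∞) * ENNReal.ofReal (pr G (t + 1) y x) := by
    intro t
    have e1 : (G.degree z : ℝ≥0∞) = ENNReal.ofReal (G.degree z : ℝ) := by simp
    rw [e1, ← ENNReal.ofReal_mul (Nat.cast_nonneg _)]
    apply ENNReal.ofReal_le_ofReal
    have h3 : (0 : ℝ) < G.degree z := by exact_mod_cast hdeg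
    have h4 : pr G t y z / G.degree z ≤ pr G (t + 1) y x := by
      rw [pr_forward]
      exact single_le_sum (f := fun w => pr G t y w / G.degree w)
        (fun w _ => div_nonneg (pr_nonneg G t y w) (Nat.cast_nonneg _)) (by simpa using h)
    rw [div_le_iff₀ h3] at h4
    linarith
  have h2 : green G y z ≤ (G.degree z : ℝ≥0∞) * green G y x := by
    calc green G y z ≤ ∑' t, (G.degree z : ℝ≥0∞) * ENNReal.ofReal (pr G (t + 1) y x) :=
          ENNReal.tsum_le_tsum h1
      _ = (G.degree z : ℝ≥0∞) * ∑' t, ENNReal.ofReal (pr G (t + 1) y x) := ENNReal.tsum_mul_left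
      _ ≤ (G.degree z : ℝ≥0∞) * green G y x := by
          gcongr
          exact ENNReal.tsum_comp_le_tsum_of_injective (add_left_injective 1)
            (fun t => ENNReal.ofReal (pr G t y x))
  exact ne_top_of_le_ne_top (ENNReal.mul_ne_top (ENNReal.natCast_ne_top _) hy) h2

lemma green_all (hG : G.Connected) {a x : V} (h : green G a x ≠ ⊤) (y z : V) :
    green G y z ≠ ⊤ := by
  have h1 : ∀ y, green G y x ≠ ⊤ := by
    intro y
    obtain ⟨p⟩ := hG.preconnected a y
    induction p with
    | nil => exact h
    | cons hadj q ih => exact ih (green_start_adj G x hadj h)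
  obtain ⟨p⟩ := hG.preconnected x z
  have h2 := h1 y
  clear h1 h
  induction p with
  | nil => exact h2
  | cons hadj q ih => exact ih (green_end_adj G hadj h2)

variable {G}

lemma pr_summable {y x : V} (h : green G y x ≠ ⊤) : Summable fun t => pr G t y x := by
  have h1 : ∑' t, ENNReal.ofReal (pr G t y x) ≠ ⊤ := h
  have h2 := ENNReal.summable_toReal h1
  refine h2.congr fun t => ?_
  rw [ENNReal.toReal_ofReal (pr_nonneg G t y x)]

lemma green_toReal {y x : V} (h : green G y x ≠ ⊤) :
    (green G y x).toReal = ∑' t, pr G t y x := by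
  unfold green
  rw [← ENNReal.ofReal_tsum_of_nonneg (fun t => pr_nonneg G t y x) (pr_summable h),
    ENNReal.toReal_ofReal (tsum_nonneg fun t => pr_nonneg G t y x)]

lemma prk_summable (W : Finset V) {y x : V} (h : green G y x ≠ ⊤) :
    Summable fun t => prk G W t y x :=
  Summable.of_nonneg_of_le (fun t => prk_nonneg G W t y x) (fun t => prk_le G W t y x)
    (pr_summable h)

variable (G)

/-- killed Green function -/
noncomputable def gk (W : Finset V) (y x : V) : ℝ := ∑' t, prk G W t y x

variable {G}

lemma gk_out (W : Finset V) {y : V} (x : V) (hy : y ∉ W) : gk G W y x = 0 := by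
  unfold gk
  have : ∀ t, prk G W t y x = 0 := by
    intro t
    cases t with
    | zero => simp [prk, hy]
    | succ t => simp [prk, hy]
  simp [this]

lemma gk_in (W : Finset V) {y : V} (x : V) (hy : y ∈ W) (h : ∀ z, green G z x ≠ ⊤) :
    gk G W y x = (if y = x then 1 else 0) + (∑ z ∈ G.neighborFinset y, gk G W z x) / G.degree y := by
  unfold gk
  rw [(prk_summable W (h y)).tsum_eq_zero_add]
  congr 1
  · simp [prk, hy]
  · simp only [prk, hy, if_true]
    rw [tsum_div_const]
    congr 1
    exact Summable.tsum_finsetSum fun z _ => prk_summable W (h z)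

lemma gk_le (W : Finset V) {y x : V} (h : green G y x ≠ ⊤) :
    gk G W y x ≤ (green G y x).toReal := by
  rw [green_toReal h]
  exact (prk_summable W h).tsum_le_tsum (fun t => prk_le G W t y x) (pr_summable h)

lemma prk_eventually {W : ℕ → Finset V} (hmono : Monotone W) (hex : ∀ x, ∃ R, x ∈ W R)
    (x : V) (t : ℕ) (y : V) : ∀ᶠ R in atTop, prk G (W R) t y x = pr G t y x := by
  have hmem : ∀ y, ∀ᶠ R in atTop, y ∈ W R := by
    intro y
    obtain ⟨R, hR⟩ := hex y
    filter_upwards [eventually_ge_atTop R] with R' h using hmono h hR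
  induction t generalizing y with
  | zero =>
    filter_upwards [hmem y] with R h
    simp [prk, pr, h]
  | succ t ih =>
    have h1 : ∀ᶠ R in atTop, ∀ z ∈ G.neighborFinset y, prk G (W R) t z x = pr G t z x :=
      (eventually_all_finset _).mpr fun z _ => ih z
    filter_upwards [hmem y, h1] with R h2 h3
    simp only [prk, pr, h2, if_true]
    congr 1
    exact sum_congr rfl h3

lemma gk_tendsto {W : ℕ → Finset V} (hmono : Monotone W) (hex : ∀ x, ∃ R, x ∈ W R)
    {y x : V} (h : green G y x ≠ ⊤) {η : ℝ} (hη : 0 < η) :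
    ∀ᶠ R in atTop, (green G y x).toReal - η ≤ gk G (W R) y x := by
  rw [green_toReal h]
  have h1 := (pr_summable h).hasSum.tendsto_sum_nat.eventually
    (lt_mem_nhds (show ∑' t, pr G t y x - η < ∑' t, pr G t y x by linarith))
  obtain ⟨T, hT⟩ := h1.exists
  have h2 : ∀ᶠ R in atTop, ∀ t ∈ range T, prk G (W R) t y x = pr G t y x :=
    (eventually_all_finset _).mpr fun t _ => prk_eventually hmono hex x t y
  filter_upwards [h2] with R h3
  have h4 : ∑ t ∈ range T, prk G (W R) t y x ≤ gk G (W R) y x :=
    (prk_summable (W R) h).sum_le_tsum _ fun t _ => prk_nonneg G (W R) t y x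
  rw [sum_congr rfl h3] at h4
  linarith

end Pool.Agent.Q171.RB
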