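import Mathlib

/-!
Maximal ergodic inequality for a bijection of a finite set.
-/

namespace Pool.Agent.Q171.RB

open Finset

variable {Ω : Type*} [Fintype Ω]

/-- running maximum of the sums of `g` -/
noncomputable def MM (T : Ω → Ω) (g : Ω → ℝ) : ℕ → Ω → ℝ
  | 0, _ => 0
  | K + 1, f => max 0 (g f + MM T g K (T f))

omit [Fintype Ω] in
lemma MM_nonneg (T : Ω → Ω) (g : Ω → ℝ) (K : ℕ) (f : Ω) : 0 ≤ MM T g K f := by
  cases K with
  | zero => exact le_rfl
  | succ K => exact le_max_left _ _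

omit [Fintype Ω] in
lemma MM_mono (T : Ω → Ω) (g : Ω → ℝ) (K : ℕ) (f : Ω) : MM T g K f ≤ MM T g (K + 1) f := by
  induction K generalizing f with
  | zero => exact MM_nonneg T g 1 f
  | succ K ih =>
    simp only [MM]
    exact max_le_max le_rfl (by have := ih (T f); simp only [MM] at this; linarith)

omit [Fintype Ω] in
lemma sum_le_MM (T : Ω → Ω) (g : Ω → ℝ) (K : ℕ) : ∀ k ≤ K, ∀ f : Ω,
    ∑ i ∈ range k, g (T^[i] f) ≤ MM T g K f := by
  induction K with
  | zero =>
    intro k hk f
    have : k = 0 := by omega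
    subst this
    simp [MM]
  | succ K ih =>
    intro k hk f
    cases k with
    | zero => simpa using MM_nonneg T g (K + 1) f
    | succ k =>
      rw [sum_range_succ']
      simp only [MM]
      refine le_trans ?_ (le_max_right _ _)
      have h1 := ih k (by omega) (T f)
      simp only [Function.iterate_succ_apply, Function.iterate_zero, id_eq]
      linarith

open Classical in
/-- maximal inequality -/
theorem maximal (T : Ω → Ω) (hT : Function.Bijective T) (U : Ω → ℝ) (hU : ∀ f, 0 ≤ U f)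
    (lam : ℝ) (hlam : 0 ≤ lam) (K : ℕ) :
    lam * (((univ : Finset Ω).filter
      (fun f => ∃ k, 1 ≤ k ∧ k ≤ K ∧ lam * k < ∑ i ∈ range k, U (T^[i] f))).card : ℝ)
      ≤ ∑ f, U f := by
  set g : Ω → ℝ := fun f => U f - lam with hg
  set E := (univ : Finset Ω).filter (fun f => 0 < MM T g (K + 1) f) with hE
  have h1 : (univ : Finset Ω).filter
      (fun f => ∃ k, 1 ≤ k ∧ k ≤ K ∧ lam * k < ∑ i ∈ range k, U (T^[i] f)) ⊆ E := by
    intro f hf
    rw [mem_filter] at hf
    obtain ⟨_, k, hk1, hkK, hk⟩ := hf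
    rw [hE, mem_filter]
    refine ⟨mem_univ _, ?_⟩
    have h2 := sum_le_MM T g (K + 1) k (by omega) f
    have h3 : ∑ i ∈ range k, g (T^[i] f) = ∑ i ∈ range k, U (T^[i] f) - lam * k := by
      simp only [hg, sum_sub_distrib, sum_const, card_range, nsmul_eq_mul]
      ring
    linarith
  have h2 : ∀ f ∈ E, MM T g (K + 1) f - MM T g (K + 1) (T f) ≤ g f := by
    intro f hf
    rw [hE, mem_filter] at hf
    have h3 : MM T g (K + 1) f = g f + MM T g K (T f) := by
      have := hf.2
      simp only [MM] at this ⊢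
      rcases le_total (g f + MM T g K (T f)) 0 with h4 | h4
      · rw [max_eq_left h4] at this
        exact absurd this (lt_irrefl _)
      · rw [max_eq_right h4]
    have := MM_mono T g K (T f)
    linarith
  have h3 : 0 ≤ ∑ f ∈ E, g f := by
    refine le_trans ?_ (sum_le_sum h2)
    rw [sum_sub_distrib]
    have e1 : ∑ f ∈ E, MM T g (K + 1) f = ∑ f, MM T g (K + 1) f := by
      rw [hE]
      apply sum_filter_of_ne
      intro f _ hne
      exact lt_of_le_of_ne (MM_nonneg _ _ _ _) (Ne.symm hne)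
    have e2 : ∑ f ∈ E, MM T g (K + 1) (T f) ≤ ∑ f, MM T g (K + 1) (T f) :=
      sum_le_sum_of_subset_of_nonneg (subset_univ _) fun f _ _ => MM_nonneg _ _ _ _
    have e3 : ∑ f, MM T g (K + 1) (T f) = ∑ f, MM T g (K + 1) f :=
      hT.sum_comp (fun f => MM T g (K + 1) f)
    linarith
  have h4 : ∑ f ∈ E, g f = ∑ f ∈ E, U f - lam * (E.card : ℝ) := by
    simp only [hg, sum_sub_distrib, sum_const, nsmul_eq_mul]
    ring
  have h5 : ∑ f ∈ E, U f ≤ ∑ f, U f :=
    sum_le_sum_of_subset_of_nonneg (subset_univ _) fun f _ _ => hU f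
  have h6 : lam * (((univ : Finset Ω).filter
      (fun f => ∃ k, 1 ≤ k ∧ k ≤ K ∧ lam * k < ∑ i ∈ range k, U (T^[i] f))).card : ℝ)
      ≤ lam * (E.card : ℝ) :=
    mul_le_mul_of_nonneg_left (by exact_mod_cast card_le_card h1) hlam
  linarith

end Pool.Agent.Q171.RB
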