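import Pool.Agent.Q171.RB.Energy
import Pool.Agent.Q171.RB.Maximal
import Pool.Agent.Q171.RB.Green

/-!
Uniform finite volume bound from the maximal inequality.
-/

namespace Pool.Agent.Q171.RB

open Finset Filter Topology

variable {V : Type*} [DecidableEq V] {G : SimpleGraph V} [G.LocallyFinite]

noncomputable instance acFintype (W : Finset V) : Fintype (AC G W) := Fintype.ofFinite _

lemma exists_w (τ : Mech G) (hτ : SingleOrbit τ) (W : Finset V) (x : W)
    (hfin : ∀ y, green G y x.1 ≠ ⊤) :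
    ∃ w : (z : W) → G.neighborSet z.1 → ℝ, ∀ (z : W) (r : G.neighborSet z.1),
      w z (τ z.1 r) - w z r
      = gk G W (τ z.1 r).1 x.1 - gk G W z.1 x.1 + if z = x then 1 else 0 := by
  have hex : ∀ z : W, ∃ w : G.neighborSet z.1 → ℝ, ∀ r, w (τ z.1 r) - w r
      = gk G W (τ z.1 r).1 x.1 - gk G W z.1 x.1 + if z = x then 1 else 0 := by
    intro z
    apply exists_cocycle0 (τ z.1) (hτ z.1)
      (fun r => gk G W r.1 x.1 - gk G W z.1 x.1 + if z = x then 1 else 0)
    rw [sum_add_distrib, sum_sub_distrib, sum_const, sum_const, card_univ,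
      G.card_neighborSet_eq_degree, nsmul_eq_mul, nsmul_eq_mul]
    have h1 : ∑ r : G.neighborSet z.1, gk G W r.1 x.1
        = ∑ y ∈ G.neighborFinset z.1, gk G W y x.1 :=
      (sum_subtype (G.neighborFinset z.1) (fun y => by simp) (fun y => gk G W y x.1)).symm
    rw [h1]
    have h2 := gk_in W x.1 z.2 hfin
    have h3 : (if z.1 = x.1 then (1 : ℝ) else 0) = if z = x then 1 else 0 := by
      simp only [Subtype.ext_iff]
    rw [h3] at h2
    rcases Nat.eq_zero_or_pos (G.degree z.1) with h0 | h0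
    · have h4 : G.neighborFinset z.1 = ∅ := by
        rw [← card_eq_zero, G.card_neighborFinset_eq_degree, h0]
      rw [h4, h0]
      simp
    · have h4 : (0 : ℝ) < G.degree z.1 := by exact_mod_cast h0
      rw [h2]
      field_simp
      ring
  choose w hw using hex
  exact ⟨w, hw⟩

lemma exists_data (τ : Mech G) (hτ : SingleOrbit τ) (W : Finset V) (a x : W)
    (hfin : ∀ y, green G y x.1 ≠ ⊤) :
    ∃ (F : AC G W → ℝ) (C : ℝ), 0 ≤ C ∧ (∀ f, |F f| ≤ C) ∧
      ∀ f n, (od τ a f n x : ℝ) = n * gk G W a.1 x.1 + F ((TT τ a)^[n] f) - F f := by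
  obtain ⟨w, hw⟩ := exists_w τ hτ W x hfin
  obtain ⟨C, hC⟩ := (Set.finite_range (fun f : AC G W => |∑ z : W, w z (f.1 z)|)).bddAbove
  refine ⟨fun f => ∑ z : W, w z (f.1 z), max C 0, le_max_right _ _, fun f => ?_, fun f n => ?_⟩
  · exact (hC ⟨f, rfl⟩).trans (le_max_left _ _)
  · exact od_energy τ a x f (fun y => gk G W y x.1) (fun z hz => gk_out W x.1 hz) w hw n

/-- restriction of acyclic configurations -/
def res {W W' : Finset V} (h : W' ⊆ W) (f : AC G W) : AC G W' :=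
  ⟨fun x => f.1 ⟨x.1, h x.2⟩, by
    rintro ⟨n, c, hn, hc, hstep⟩
    exact f.2 ⟨n, fun i => ⟨(c i).1, h (c i).2⟩, hn, by simp only [hc],
      fun i hi => hstep i hi⟩⟩

/-- odometer as a function on `V` -/
noncomputable def oV (τ : Mech G) (a : V) (W : Finset V) (ha : a ∈ W) (f : AC G W) (n : ℕ)
    (y : V) : ℕ := if h : y ∈ W then od τ ⟨a, ha⟩ f n ⟨y, h⟩ else 0

lemma oV_in (τ : Mech G) (a : V) (W : Finset V) (ha : a ∈ W) (f : AC G W) (n : ℕ)
    {y : V} (h : y ∈ W) : oV τ a W ha f n y = od τ ⟨a, ha⟩ f n ⟨y, h⟩ := by simp [oV, h]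

lemma oV_mono (τ : Mech G) (a : V) {W W' : Finset V} (hW : W' ⊆ W) (ha' : a ∈ W') (ha : a ∈ W)
    (f : AC G W) (n : ℕ) (y : V) :
    oV τ a W' ha' (res hW f) n y ≤ oV τ a W ha f n y := by
  by_cases hy : y ∈ W'
  · rw [oV_in τ a W' ha' _ n hy, oV_in τ a W ha f n (hW hy)]
    apply od_least τ ⟨a, ha'⟩ (res hW f) n (fun y => od τ ⟨a, ha⟩ f n ⟨y.1, hW y.2⟩)
      (y := ⟨y, hy⟩)
    intro y
    rw [← od_balance τ ⟨a, ha⟩ f n ⟨y.1, hW y.2⟩]
    have h1 : (if y = (⟨a, ha'⟩ : W') then 1 else 0)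
        = if (⟨y.1, hW y.2⟩ : W) = ⟨a, ha⟩ then 1 else 0 := by
      simp only [Subtype.ext_iff]
    rw [h1]
    apply Nat.add_le_add_left
    let ι : W' ↪ W := ⟨fun z => ⟨z.1, hW z.2⟩, fun z z' h => Subtype.ext
      (congrArg (Subtype.val : W → V) h)⟩
    have h2 := sum_map (univ : Finset W') ι
      (fun z : W => cnt τ z.1 (f.1 z) y.1 (od τ ⟨a, ha⟩ f n z))
    refine le_trans (le_of_eq h2.symm) ?_
    exact sum_le_sum_of_subset (subset_univ _)
  · simp [oV, hy]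

lemma oV_mono_n (τ : Mech G) (a : V) (W : Finset V) (ha : a ∈ W) (f : AC G W)
    (y : V) : Monotone (fun n => oV τ a W ha f n y) := by
  apply monotone_nat_of_le_succ
  intro n
  unfold oV
  split_ifs with h
  · unfold od
    rw [tn, vis_add]
    exact Nat.le_add_right _ _
  · exact le_rfl

open Classical in
/-- uniform finite volume bound -/
theorem finite_bound (τ : Mech G) (hτ : SingleOrbit τ) {W : ℕ → Finset V} (hmono : Monotone W)
    (hex : ∀ x, ∃ R, x ∈ W R) {a : V} (ha : ∀ R, a ∈ W R) (x : V)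
    (hfin : ∀ y, green G y x ≠ ⊤) {ε δ : ℝ} (hε : 0 < ε) (hδ : 0 < δ) :
    ∃ m : ℕ, 1 ≤ m ∧ ∃ R' : ℕ, ∀ R, R' ≤ R → ∀ K : ℕ,
      (((univ : Finset (AC G (W R))).filter (fun f => ∃ k : ℕ, 1 ≤ k ∧ k ≤ K ∧
        ((green G a x).toReal + ε) * ((k * m : ℕ) : ℝ) < oV τ a (W R) (ha R) f (k * m) x)).card : ℝ)
      ≤ δ * Fintype.card (AC G (W R)) := by
  set g := (green G a x).toReal with hg
  -- choice of `R'`
  have h1 := gk_tendsto hmono hex (hfin a) (η := δ * ε / 2) (by positivity)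
  have h2 : ∀ᶠ R in atTop, x ∈ W R := by
    obtain ⟨R, hR⟩ := hex x
    filter_upwards [eventually_ge_atTop R] with R' h using hmono h hR
  obtain ⟨R', hR1, hR2⟩ := (h1.and h2).exists
  obtain ⟨F', C', hC0, hC', hod'⟩ := exists_data τ hτ (W R') ⟨a, ha R'⟩ ⟨x, hR2⟩ hfin
  obtain ⟨m, hm⟩ := exists_nat_gt (2 * (2 * C') / (δ * ε))
  have hm0 : 0 < (m : ℝ) := lt_of_le_of_lt (by positivity) hm
  have hm1 : 1 ≤ m := by
    have : 0 < m := by exact_mod_cast hm0
    omega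
  have hmC : 2 * C' ≤ m * (δ * ε / 2) := by
    rw [div_lt_iff₀ (by positivity)] at hm
    linarith
  refine ⟨m, hm1, R', fun R hR K => ?_⟩
  have hxR : x ∈ W R := hmono hR hR2
  obtain ⟨F, C, hF0, hFC, hod⟩ := exists_data τ hτ (W R) ⟨a, ha R⟩ ⟨x, hxR⟩ hfin
  set T : AC G (W R) → AC G (W R) := (TT τ (⟨a, ha R⟩ : W R))^[m] with hT
  have hTinj : Function.Injective T := (TT_injective τ _).iterate m
  have hTbij : Function.Bijective T := Finite.injective_iff_bijective.mp hTinj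
  have hTi : ∀ i f, T^[i] f = (TT τ (⟨a, ha R⟩ : W R))^[m * i] f := by
    intro i f
    rw [hT, Function.iterate_mul]
  set U : AC G (W R) → ℝ := fun f =>
    (od τ ⟨a, ha R⟩ f m ⟨x, hxR⟩ : ℝ) - m * gk G (W R') a x + 2 * C' with hU
  have hU0 : ∀ f, 0 ≤ U f := by
    intro f
    have e1 := oV_mono τ a (hmono hR) (ha R') (ha R) f m x
    rw [oV_in τ a (W R') (ha R') _ m hR2, oV_in τ a (W R) (ha R) f m hxR] at e1
    have e2 := hod' (res (hmono hR) f) m
    have e3 := hC' ((TT τ ⟨a, ha R'⟩)^[m] (res (hmono hR) f))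
    have e4 := hC' (res (hmono hR) f)
    rw [abs_le] at e3 e4
    have e5 : (od τ ⟨a, ha R'⟩ (res (hmono hR) f) m ⟨x, hR2⟩ : ℝ)
        ≤ (od τ ⟨a, ha R⟩ f m ⟨x, hxR⟩ : ℝ) := by exact_mod_cast e1
    simp only [hU]
    linarith [e3.1, e4.2]
  have hsumU : ∀ k f, ∑ i ∈ range k, U (T^[i] f)
      = (od τ ⟨a, ha R⟩ f (k * m) ⟨x, hxR⟩ : ℝ) + k * (2 * C' - m * gk G (W R') a x) := by
    intro k f
    have e1 : ∑ i ∈ range k, (od τ ⟨a, ha R⟩ (T^[i] f) m ⟨x, hxR⟩ : ℝ)
        = (od τ ⟨a, ha R⟩ f (k * m) ⟨x, hxR⟩ : ℝ) := by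
      rw [hod f (k * m)]
      have e2 : ∀ i, (od τ ⟨a, ha R⟩ (T^[i] f) m ⟨x, hxR⟩ : ℝ)
          = m * gk G (W R) a x + (F (T^[i + 1] f) - F (T^[i] f)) := by
        intro i
        rw [hod (T^[i] f) m, Function.iterate_succ_apply']
        ring
      simp_rw [e2]
      rw [sum_add_distrib, sum_range_sub (fun i => F (T^[i] f)), sum_const, card_range,
        nsmul_eq_mul, hTi k, Function.iterate_zero, id_eq, Nat.mul_comm m k]
      push_cast
      ring
    simp only [hU]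
    rw [sum_add_distrib, sum_sub_distrib, e1, sum_const, sum_const, card_range, nsmul_eq_mul,
      nsmul_eq_mul]
    ring
  have hmean : ∑ f, U f ≤ (m * δ * ε) * Fintype.card (AC G (W R)) := by
    have e1 : ∑ f, U f = (m * gk G (W R) a x - m * gk G (W R') a x + 2 * C')
        * Fintype.card (AC G (W R)) := by
      simp only [hU]
      simp_rw [hod _ m]
      have e2 : ∑ f, F (T f) = ∑ f, F f := hTbij.sum_comp (fun f => F f)
      rw [sum_add_distrib, sum_sub_distrib, sum_sub_distrib, sum_add_distrib, e2, sum_const,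
        sum_const, sum_const, card_univ, nsmul_eq_mul, nsmul_eq_mul, nsmul_eq_mul]
      ring
    rw [e1]
    apply mul_le_mul_of_nonneg_right _ (Nat.cast_nonneg _)
    have e3 := gk_le (W R) (hfin a)
    rw [← hg] at e3
    nlinarith
  have hmax := maximal T hTbij U hU0 (ε * m) (by positivity) K
  have hsub : (univ : Finset (AC G (W R))).filter (fun f => ∃ k : ℕ, 1 ≤ k ∧ k ≤ K ∧
        (g + ε) * ((k * m : ℕ) : ℝ) < oV τ a (W R) (ha R) f (k * m) x)
      ⊆ (univ : Finset (AC G (W R))).filter (fun f => ∃ k, 1 ≤ k ∧ k ≤ K ∧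
        (ε * m) * k < ∑ i ∈ range k, U (T^[i] f)) := by
    intro f hf
    rw [mem_filter] at hf ⊢
    obtain ⟨_, k, hk1, hkK, hk⟩ := hf
    refine ⟨mem_univ _, k, hk1, hkK, ?_⟩
    rw [oV_in τ a (W R) (ha R) f (k * m) hxR] at hk
    rw [hsumU]
    have e3 := gk_le (W R') (hfin a)
    rw [← hg] at e3
    push_cast at hk
    have hk0 : (0 : ℝ) ≤ k := Nat.cast_nonneg k
    have e4 : (k : ℝ) * (m * gk G (W R') a x) ≤ k * (m * g) := by gcongr
    have e5 : (0 : ℝ) ≤ k * (2 * C') := by positivity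
    nlinarith
  have hcard : (((univ : Finset (AC G (W R))).filter (fun f => ∃ k : ℕ, 1 ≤ k ∧ k ≤ K ∧
        (g + ε) * ((k * m : ℕ) : ℝ) < oV τ a (W R) (ha R) f (k * m) x)).card : ℝ)
      ≤ (((univ : Finset (AC G (W R))).filter (fun f => ∃ k, 1 ≤ k ∧ k ≤ K ∧
        (ε * m) * k < ∑ i ∈ range k, U (T^[i] f))).card : ℝ) := by
    exact_mod_cast card_le_card hsub
  have hfinal := hmax.trans hmean
  have h3 : (ε * m) * (((univ : Finset (AC G (W R))).filter (fun f => ∃ k, 1 ≤ k ∧ k ≤ K ∧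
        (ε * m) * k < ∑ i ∈ range k, U (T^[i] f))).card : ℝ)
      ≤ (ε * m) * (δ * Fintype.card (AC G (W R))) := by
    refine hfinal.trans (le_of_eq ?_)
    ring
  exact hcard.trans (le_of_mul_le_mul_left h3 (by positivity))

end Pool.Agent.Q171.RB
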