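import Mathlib

/-!
Rotor walk on an infinite graph, its occupation rates, the Green function of simple random walk
and the oriented wired uniform spanning forest.
-/

namespace Pool.Agent.Q171.RB

open MeasureTheory Filter Topology
open scoped ENNReal

variable {V : Type*} [DecidableEq V] (G : SimpleGraph V) [G.LocallyFinite]

/-- Rotor configurations: the rotor at `x` points to a neighbour of `x`. -/
abbrev Cfg := (x : V) → G.neighborSet x

omit [DecidableEq V] [G.LocallyFinite] in
/-- discrete sigma-algebra on the (finite) neighbour sets; configurations carry the product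
sigma-algebra -/
instance nbrMeasurableSpace (x : V) : MeasurableSpace (G.neighborSet x) := ⊤

/-- Local mechanisms: a permutation of each neighbour set. -/
abbrev Mech := (x : V) → Equiv.Perm (G.neighborSet x)

variable {G}

/-- One step of rotor walk: advance the rotor at the current vertex, then follow it. -/
def step (τ : Mech G) (s : V × Cfg G) : V × Cfg G :=
  ((τ s.1 (s.2 s.1)).1, Function.update s.2 s.1 (τ s.1 (s.2 s.1)))

/-- Position and rotor configuration after `t` steps of the rotor walk from `a`. -/
def walk (τ : Mech G) (a : V) (ρ : Cfg G) (t : ℕ) : V × Cfg G := (step τ)^[t] (a, ρ)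

/-- every vertex is visited finitely often -/
def Transient (τ : Mech G) (a : V) (ρ : Cfg G) : Prop :=
  ∀ x : V, {t : ℕ | (walk τ a ρ t).1 = x}.Finite

open Classical in
/-- The final rotor configuration `σ(ρ)`: at `x` the eventual value of the rotor at `x` (junk
value `ρ x` if the rotor at `x` is not eventually constant). -/
noncomputable def final (τ : Mech G) (a : V) (ρ : Cfg G) : Cfg G :=
  fun x => if h : ∃ y : G.neighborSet x, ∀ᶠ t in atTop, (walk τ a ρ t).2 x = y
    then h.choose else ρ x

/-- `u(ρ, x)`: the number of times `t ≥ 0` with `X_t = x`. -/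
noncomputable def visits (τ : Mech G) (a : V) (ρ : Cfg G) (x : V) : ℕ∞ :=
  {t : ℕ | (walk τ a ρ t).1 = x}.encard

open Classical in
/-- `S_n(ρ, x)`: visits to `x` during `n` successive walks from `a` (rotors never reset), and
`∞` if one of these walks is not transient. -/
noncomputable def S (τ : Mech G) (a : V) (n : ℕ) (ρ : Cfg G) (x : V) : ℝ≥0∞ :=
  if ∀ i < n, Transient τ a ((final τ a)^[i] ρ) then
    ∑ i ∈ Finset.range n, (visits τ a ((final τ a)^[i] ρ) x : ℝ≥0∞) else ⊤

variable (G)

/-- `pr G t y x`: the probability that simple random walk from `y` is at `x` at time `t`. -/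
noncomputable def pr : ℕ → V → V → ℝ
  | 0, y, x => if y = x then 1 else 0
  | t + 1, y, x => (∑ z ∈ G.neighborFinset y, pr t z x) / G.degree y

/-- The expected number of visits to `x` (times `t ≥ 0`) of simple random walk from `a`. -/
noncomputable def green (a x : V) : ℝ≥0∞ := ∑' t, ENNReal.ofReal (pr G t a x)

variable {G}

omit [DecidableEq V] [G.LocallyFinite] in
/-- `f` gives every vertex of the finite set `W` an out-neighbour; no oriented cycle. -/
def Acyclic (W : Finset V) (f : (x : W) → G.neighborSet x.1) : Prop :=
  ¬ ∃ (n : ℕ) (c : ℕ → W), 0 < n ∧ c n = c 0 ∧ ∀ i < n, (c (i + 1) : V) = (f (c i)).1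

omit [DecidableEq V] [G.LocallyFinite] in
/-- The number of oriented spanning forests with out-degree `1` on `W`, out-degree `0` off `W`
and no oriented cycle, which agree with `q` on `B`. -/
noncomputable def forests (W : Finset V) (B : Finset V) (q : Cfg G) : ℕ :=
  Nat.card {f : (x : W) → G.neighborSet x.1 //
    Acyclic W f ∧ ∀ x ∈ B, ∃ h : x ∈ W, f ⟨x, h⟩ = q x}

/-- `P` is the oriented wired uniform spanning forest: the limit of the uniform measures on
oriented spanning forests along an exhaustion of `V` by finite sets. -/
structure IsOWUSF (P : Measure (Cfg G)) : Prop where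
  prob : IsProbabilityMeasure P
  lim : ∃ W : ℕ → Finset V, Monotone W ∧ (∀ x, ∃ R, x ∈ W R) ∧
    ∀ (B : Finset V) (q : Cfg G),
      Tendsto (fun R => (forests (W R) B q : ℝ) / (forests (W R) ∅ q : ℝ)) atTop
        (𝓝 (P.real {ρ | ∀ x ∈ B, ρ x = q x}))

/-- every mechanism has a single orbit -/
def SingleOrbit (τ : Mech G) : Prop :=
  ∀ (x : V) (y z : G.neighborSet x), ∃ n : ℕ, (τ x ^ n) y = z

end Pool.Agent.Q171.RB
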