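import Pool.Agent.Q171.RB.Finite

/-!
Balance equation, energy identity and least action principle for the walk with sink.
-/

namespace Pool.Agent.Q171.RB

open Finset

section Cocycle

variable {D : Type*} [Fintype D] [DecidableEq D]

/-- a cyclic cocycle with vanishing total sum is a coboundary -/
lemma exists_cocycle0 (τ : Equiv.Perm D) (hτ : ∀ δ δ' : D, ∃ n : ℕ, (τ ^ n) δ = δ')
    (c : D → ℝ) (hc : ∑ δ, c δ = 0) :
    ∃ w : D → ℝ, ∀ δ, w (τ δ) - w δ = c (τ δ) := by
  classical
  rcases isEmpty_or_nonempty D with hD | ⟨⟨δ0⟩⟩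
  · exact ⟨fun _ => 0, fun δ => (IsEmpty.false δ).elim⟩
  have hcyc : τ.IsCycleOn ((Finset.univ : Finset D) : Set D) := by
    constructor
    · rw [Finset.coe_univ]
      exact τ.bijective.bijOn_univ
    · intro x _ y _
      obtain ⟨n, hn⟩ := hτ x y
      exact ⟨n, by simpa using hn⟩
  set K := (Finset.univ : Finset D).card with hK
  have hKpos : 0 < K := Finset.card_pos.mpr ⟨δ0, Finset.mem_univ _⟩
  have hmod : ∀ m n : ℕ, (τ ^ m) δ0 = (τ ^ n) δ0 ↔ m ≡ n [MOD K] := fun m n =>
    hcyc.pow_apply_eq_pow_apply (by simp)
  have hex : ∀ δ, ∃ n < K, (τ ^ n) δ0 = δ := fun δ =>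
    hcyc.exists_pow_eq (by simp) (by simp)
  choose j hj hjδ using hex
  have hsum : ∀ g : D → ℝ, ∑ i ∈ Finset.range K, g ((τ ^ (i + 1)) δ0) = ∑ δ, g δ := by
    intro g
    have hinj : Set.InjOn (fun i => (τ ^ (i + 1)) δ0) (Finset.range K : Set ℕ) := by
      intro a ha b hb hab
      have h1 := (hmod (a + 1) (b + 1)).mp hab
      have h2 : a ≡ b [MOD K] := Nat.ModEq.add_right_cancel' 1 h1
      exact Nat.ModEq.eq_of_lt_of_lt h2 (by simpa using ha) (by simpa using hb)
    rw [← Finset.sum_image (f := g) hinj]
    apply Finset.sum_congr _ fun _ _ => rfl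
    rw [← Finset.card_eq_iff_eq_univ, Finset.card_image_of_injOn hinj, Finset.card_range, hK,
      Finset.card_univ]
  refine ⟨fun δ => ∑ i ∈ Finset.range (j δ), c ((τ ^ (i + 1)) δ0), ?_⟩
  intro δ
  have h1 : (τ ^ (j δ + 1)) δ0 = τ δ := by
    rw [pow_succ', Equiv.Perm.mul_apply, hjδ]
  have h2 : j (τ δ) ≡ j δ + 1 [MOD K] := by
    rw [← hmod, hjδ, h1]
  rcases Nat.lt_or_ge (j δ + 1) K with h3 | h3
  · have h4 := Nat.ModEq.eq_of_lt_of_lt h2 (hj _) h3
    simp only [h4, Finset.sum_range_succ, h1]
    simp
  · have h5 : j δ + 1 = K := by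
      have := hj δ
      omega
    have h6 : j (τ δ) = 0 := by
      have : j (τ δ) ≡ 0 [MOD K] := by
        refine h2.trans ?_
        rw [h5]
        exact (Nat.modEq_zero_iff_dvd.mpr dvd_rfl)
      exact Nat.ModEq.eq_of_lt_of_lt this (hj _) hKpos
    have h7 := hsum c
    rw [← h5, Finset.sum_range_succ, hc, h1] at h7
    have h8 : ∑ i ∈ Finset.range (j (τ δ)), c ((τ ^ (i + 1)) δ0) = 0 := by
      rw [h6, Finset.range_zero, Finset.sum_empty]
    change ∑ i ∈ Finset.range (j (τ δ)), c ((τ ^ (i + 1)) δ0)
      - ∑ i ∈ Finset.range (j δ), c ((τ ^ (i + 1)) δ0) = c (τ δ)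
    rw [h8]
    linarith

end Cocycle

variable {V : Type*} [DecidableEq V] {G : SimpleGraph V} {W : Finset V}

/-- number of moves `z → y` among the first `m` moves out of `z` with initial rotor `r` -/
def cnt (τ : Mech G) (z : V) (r : G.neighborSet z) (y : V) (m : ℕ) : ℕ :=
  ∑ j ∈ range m, if ((τ z ^ (j + 1)) r).1 = y then 1 else 0

lemma cnt_succ (τ : Mech G) (z : V) (r : G.neighborSet z) (y : V) (m : ℕ) :
    cnt τ z r y (m + 1) = cnt τ z r y m + if ((τ z ^ (m + 1)) r).1 = y then 1 else 0 :=
  sum_range_succ _ _

lemma cnt_mono (τ : Mech G) (z : V) (r : G.neighborSet z) (y : V) : Monotone (cnt τ z r y) := by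
  apply monotone_nat_of_le_succ
  intro m
  rw [cnt_succ]
  exact Nat.le_add_right _ _

lemma cnt_eq_zero (τ : Mech G) {z : V} (r : G.neighborSet z) {y : V} (h : ¬ G.Adj z y) (m : ℕ) :
    cnt τ z r y m = 0 := by
  unfold cnt
  apply sum_eq_zero
  intro j _
  rw [if_neg]
  intro he
  apply h
  have := ((τ z ^ (j + 1)) r).2
  rw [he] at this
  exact this

lemma rotor_eq (τ : Mech G) (a : W) (f : FC G W) (t : ℕ) (y : W) :
    ((st τ a)^[t] (none, f)).2 y = (τ y.1 ^ (vis τ a (some y) t (none, f))) (f y) := by
  induction t with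
  | zero => rfl
  | succ t ih =>
    rw [Function.iterate_succ_apply', vis_succ]
    set s := (st τ a)^[t] (none, f) with hs
    simp only [st]
    rcases hv : s.1 with _ | x
    · simp only [adv]
      rw [ih]
      simp
    · simp only [adv]
      by_cases hyx : y = x
      · subst hyx
        rw [Function.update_self, if_pos rfl, pow_succ', Equiv.Perm.mul_apply, ih]
      · rw [Function.update_of_ne hyx, if_neg, Nat.add_zero, ih]
        intro h
        exact hyx (Option.some.inj h).symm

/-- balance equation -/
lemma balance (τ : Mech G) (a : W) (f : FC G W) (t : ℕ) (y : W) :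
    vis τ a none t (none, f) * (if y = a then 1 else 0)
      + ∑ z : W, cnt τ z.1 (f z) y.1 (vis τ a (some z) t (none, f))
      = vis τ a (some y) t (none, f)
        + if ((st τ a)^[t] (none, f)).1 = some y then 1 else 0 := by
  induction t with
  | zero => simp [vis_zero, cnt]
  | succ t ih =>
    rw [vis_succ τ a (some y), ← ih, vis_succ τ a none]
    rcases hv : ((st τ a)^[t] (none, f)).1 with _ | x
    · have h1 : ((st τ a)^[t + 1] (none, f)).1 = some a := by
        rw [Function.iterate_succ_apply']
        simp only [st, hv, nx]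
      have h2 : ∀ z : W, vis τ a (some z) (t + 1) (none, f) = vis τ a (some z) t (none, f) := by
        intro z
        rw [vis_succ, hv]
        simp
      simp only [h2, h1, if_true]
      by_cases hya : y = a
      · subst hya
        simp
        ring
      · have : ¬ (some a = some y) := fun h => hya (Option.some.inj h).symm
        simp [hya, this]
    · have h0 := rotor_eq τ a f (t + 1) x
      have hx : vis τ a (some x) (t + 1) (none, f) = vis τ a (some x) t (none, f) + 1 := by
        rw [vis_succ, hv]
        simp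
      have hz : ∀ z : W, z ≠ x →
          vis τ a (some z) (t + 1) (none, f) = vis τ a (some z) t (none, f) := by
        intro z hz
        rw [vis_succ, hv, if_neg]
        · rfl
        · intro h
          exact hz (Option.some.inj h).symm
      have hnone : (if (some x : Option W) = none then 1 else 0) = 0 := if_neg (by simp)
      rw [hx] at h0
      have hpos : (((st τ a)^[t + 1] (none, f)).1 = some y)
          ↔ ((τ x.1 ^ (vis τ a (some x) t (none, f) + 1)) (f x)).1 = y.1 := by
        rw [← h0, Function.iterate_succ_apply']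
        simp only [st]
        rw [hv]
        simp only [nx]
        split_ifs with h3
        · constructor
          · intro h
            exact congrArg Subtype.val (Option.some.inj h)
          · intro h
            congr 1
            exact Subtype.ext h
        · constructor
          · intro h
            exact absurd h (by simp)
          · intro h
            exact absurd (h ▸ y.2) h3
      have hsum : ∑ z : W, cnt τ z.1 (f z) y.1 (vis τ a (some z) (t + 1) (none, f))
          = ∑ z : W, cnt τ z.1 (f z) y.1 (vis τ a (some z) t (none, f))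
            + if ((τ x.1 ^ (vis τ a (some x) t (none, f) + 1)) (f x)).1 = y.1 then 1 else 0 := by
        rw [← add_sum_erase _ _ (mem_univ x), ← add_sum_erase _ _ (mem_univ x), hx, cnt_succ]
        have : ∑ z ∈ univ.erase x, cnt τ z.1 (f z) y.1 (vis τ a (some z) (t + 1) (none, f))
            = ∑ z ∈ univ.erase x, cnt τ z.1 (f z) y.1 (vis τ a (some z) t (none, f)) := by
          refine sum_congr rfl fun z hz' => ?_
          rw [hz z (ne_of_mem_erase hz')]
        rw [this]
        ring
      rw [hsum, hnone]
      simp only [hpos]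
      ring

/-- least action principle -/
lemma least_action (τ : Mech G) (a : W) (f : FC G W) (n : ℕ) (v : W → ℕ)
    (hv : ∀ y : W, n * (if y = a then 1 else 0)
      + ∑ z : W, cnt τ z.1 (f z) y.1 (v z) ≤ v y) (t : ℕ)
    (ht : vis τ a none t (none, f) ≤ n) (y : W) : vis τ a (some y) t (none, f) ≤ v y := by
  induction t generalizing y with
  | zero => simp [vis_zero]
  | succ t ih =>
    have ht' : vis τ a none t (none, f) ≤ n := by
      rw [vis_succ] at ht
      omega
    have ih' := ih ht'
    by_cases hX : ((st τ a)^[t] (none, f)).1 = some y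
    · have hb := balance τ a f t y
      rw [if_pos hX] at hb
      rw [vis_succ, if_pos hX, ← hb]
      refine le_trans ?_ (hv y)
      gcongr with z _
      exact cnt_mono τ z.1 (f z) y.1 (ih' z)
    · rw [vis_succ, if_neg hX, Nat.add_zero]
      exact ih' y

/-- height of a position -/
def HH (h : V → ℝ) : Option W → ℝ
  | none => 0
  | some z => h z.1

/-- energy identity -/
lemma energy (τ : Mech G) (a x : W) (f : FC G W) (h : V → ℝ) (hout : ∀ z, z ∉ W → h z = 0)
    (w : (z : W) → G.neighborSet z.1 → ℝ)
    (hw : ∀ (z : W) (r : G.neighborSet z.1), w z (τ z.1 r) - w z r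
      = h (τ z.1 r).1 - h z.1 + if z = x then 1 else 0) (t : ℕ) :
    HH h ((st τ a)^[t] (none, f)).1 - ∑ z : W, w z (((st τ a)^[t] (none, f)).2 z)
      + vis τ a (some x) t (none, f)
      = - ∑ z : W, w z (f z) + vis τ a none t (none, f) * h a.1 := by
  induction t with
  | zero => simp [vis_zero, HH]
  | succ t ih =>
    rw [vis_succ τ a (some x), vis_succ τ a none]
    push_cast
    rw [Function.iterate_succ_apply']
    set s := (st τ a)^[t] (none, f) with hs
    rcases hv : s.1 with _ | y
    · have h1 : (st τ a s).1 = some a := by simp only [st, hv, nx]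
      have h2 : (st τ a s).2 = s.2 := by simp only [st, hv, adv]
      rw [h1, h2]
      rw [hv] at ih
      simp only [HH] at ih ⊢
      simp only [reduceCtorEq, if_false, if_true]
      linarith
    · have h2 : (st τ a s).2 = Function.update s.2 y (τ y.1 (s.2 y)) := by
        simp only [st, hv, adv]
      have h1 : HH h (st τ a s).1 = h (τ y.1 (s.2 y)).1 := by
        simp only [st, hv, adv, nx, Function.update_self]
        split_ifs with h3
        · rfl
        · simp only [HH]
          exact (hout _ h3).symm
      have h3 : ∑ z : W, w z ((st τ a s).2 z)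
          = ∑ z : W, w z (s.2 z) + (w y (τ y.1 (s.2 y)) - w y (s.2 y)) := by
        rw [h2, ← add_sum_erase _ _ (mem_univ y), ← add_sum_erase _ _ (mem_univ y),
          Function.update_self]
        have : ∑ z ∈ univ.erase y, w z (Function.update s.2 y (τ y.1 (s.2 y)) z)
            = ∑ z ∈ univ.erase y, w z (s.2 z) := by
          refine sum_congr rfl fun z hz => ?_
          rw [Function.update_of_ne (ne_of_mem_erase hz)]
        rw [this]
        ring
      rw [h1, h3, hw]
      rw [hv] at ih
      simp only [HH] at ih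
      have h4 : ((if (some y : Option W) = none then 1 else 0 : ℕ) : ℝ) = 0 := by simp
      have h5 : (if (some y : Option W) = some x then (1 : ℝ) else 0) = if y = x then 1 else 0 := by
        simp
      simp only [reduceCtorEq, if_false]
      rw [h5]
      linarith

/-- visits during `n` excursions -/
lemma od_energy [G.LocallyFinite] (τ : Mech G) (a x : W) (f : AC G W) (h : V → ℝ)
    (hout : ∀ z, z ∉ W → h z = 0)
    (w : (z : W) → G.neighborSet z.1 → ℝ)
    (hw : ∀ (z : W) (r : G.neighborSet z.1), w z (τ z.1 r) - w z r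
      = h (τ z.1 r).1 - h z.1 + if z = x then 1 else 0) (n : ℕ) :
    (od τ a f n x : ℝ) = n * h a.1 + ∑ z : W, w z (((TT τ a)^[n] f).1 z)
      - ∑ z : W, w z (f.1 z) := by
  have h1 := energy τ a x f.1 h hout w hw (tn τ a f n)
  rw [st_tn, vis_tn] at h1
  simp only [HH] at h1
  unfold od
  linarith

lemma od_balance [G.LocallyFinite] (τ : Mech G) (a : W) (f : AC G W) (n : ℕ) (y : W) :
    n * (if y = a then 1 else 0) + ∑ z : W, cnt τ z.1 (f.1 z) y.1 (od τ a f n z)
      = od τ a f n y := by
  have h1 := balance τ a f.1 (tn τ a f n) y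
  rw [st_tn, vis_tn] at h1
  simpa [od] using h1

lemma od_least [G.LocallyFinite] (τ : Mech G) (a : W) (f : AC G W) (n : ℕ) (v : W → ℕ)
    (hv : ∀ y : W, n * (if y = a then 1 else 0)
      + ∑ z : W, cnt τ z.1 (f.1 z) y.1 (v z) ≤ v y) (y : W) : od τ a f n y ≤ v y :=
  least_action τ a f.1 n v hv _ (vis_tn τ a f n).le y

end Pool.Agent.Q171.RB
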