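import Pool.Agent.Q171.RB.Defs

/-!
Rotor walk on a finite set with a sink: it acts injectively on the acyclic configurations.
-/

namespace Pool.Agent.Q171.RB

open Finset

variable {V : Type*} [DecidableEq V] {G : SimpleGraph V}

/-- configurations on `W` -/
abbrev FC (G : SimpleGraph V) (W : Finset V) := (x : W) → G.neighborSet x.1

variable {W : Finset V}

/-- the out-edge map; `none` is the sink, its out-edge goes to `a` -/
def nx (a : W) (f : FC G W) : Option W → Option W
  | none => some a
  | some x => if h : (f x).1 ∈ W then some ⟨(f x).1, h⟩ else none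

/-- advance the rotor at `v` -/
def adv (τ : Mech G) (v : Option W) (f : FC G W) : FC G W :=
  match v with
  | none => f
  | some x => Function.update f x (τ x.1 (f x))

/-- one step of the walk with sink -/
def st (τ : Mech G) (a : W) (s : Option W × FC G W) : Option W × FC G W :=
  (nx a (adv τ s.1 s.2) s.1, adv τ s.1 s.2)

/-- all paths lead to the current position -/
def Good (a : W) (s : Option W × FC G W) : Prop := ∀ w, ∃ n, (nx a s.2)^[n] w = s.1

lemma nx_congr (a : W) {f g : FC G W} {v : Option W} (h : ∀ x, some x ≠ v → f x = g x)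
    {u : Option W} (hu : u ≠ v) : nx a f u = nx a g u := by
  cases u with
  | none => rfl
  | some x => simp only [nx, h x hu]

lemma lead_congr (a : W) {f g : FC G W} {v : Option W} (h : ∀ x, some x ≠ v → f x = g x) :
    ∀ n w, (nx a f)^[n] w = v → ∃ m, (nx a g)^[m] w = v := by
  intro n
  induction n with
  | zero => exact fun w hw => ⟨0, hw⟩
  | succ n ih =>
    intro w hw
    by_cases hwv : w = v
    · exact ⟨0, hwv⟩
    · rw [Function.iterate_succ_apply, nx_congr a h hwv] at hw
      obtain ⟨m, hm⟩ := ih _ hw
      exact ⟨m + 1, by rw [Function.iterate_succ_apply]; exact hm⟩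

lemma adv_off (τ : Mech G) (v : Option W) (f : FC G W) : ∀ x, some x ≠ v → adv τ v f x = f x := by
  intro x hx
  cases v with
  | none => rfl
  | some y =>
    simp only [adv]
    rw [Function.update_of_ne]
    intro h
    exact hx (by rw [h])

lemma good_adv (τ : Mech G) (a : W) {s : Option W × FC G W} (hs : Good a s) :
    ∀ w, ∃ n, (nx a (adv τ s.1 s.2))^[n] w = s.1 := by
  intro w
  obtain ⟨n, hn⟩ := hs w
  exact lead_congr a (fun x hx => (adv_off τ s.1 s.2 x hx).symm) n w hn

lemma good_st (τ : Mech G) (a : W) {s : Option W × FC G W} (hs : Good a s) :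
    Good a (st τ a s) := by
  intro w
  obtain ⟨n, hn⟩ := good_adv τ a hs w
  refine ⟨n + 1, ?_⟩
  simp only [st]
  rw [Function.iterate_succ_apply', hn]

lemma adv_inj (τ : Mech G) (v : Option W) {f g : FC G W} (h : adv τ v f = adv τ v g) : f = g := by
  cases v with
  | none => exact h
  | some x =>
    ext1 y
    have hy := congrFun h y
    simp only [adv] at hy
    by_cases hyx : y = x
    · subst hyx
      simpa using hy
    · rwa [Function.update_of_ne hyx, Function.update_of_ne hyx] at hy

lemma st_inj (τ : Mech G) (a : W) {s t : Option W × FC G W} (hs : Good a s) (ht : Good a t)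
    (h : st τ a s = st τ a t) : s = t := by
  have h1 : nx a (adv τ s.1 s.2) s.1 = nx a (adv τ t.1 t.2) t.1 := congrArg Prod.fst h
  have h2 : adv τ s.1 s.2 = adv τ t.1 t.2 := congrArg Prod.snd h
  have hs' := good_adv τ a hs
  have ht' := good_adv τ a ht
  rw [← h2] at h1 ht'
  set g := nx a (adv τ s.1 s.2) with hg
  set y := g s.1 with hy
  obtain ⟨n, hn⟩ := hs' y
  obtain ⟨m, hm⟩ := ht' y
  have pn : Function.IsPeriodicPt g (n + 1) y := by
    change g^[n + 1] y = y
    rw [Function.iterate_succ_apply', hn]
  have pm : Function.IsPeriodicPt g (m + 1) y := by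
    change g^[m + 1] y = y
    rw [Function.iterate_succ_apply', hm, ← h1]
  have hv : s.1 = t.1 := by
    have d1 := pn.minimalPeriod_dvd
    have d2 := pm.minimalPeriod_dvd
    have hmod : n ≡ m [MOD Function.minimalPeriod g y] := by
      have : n + 1 ≡ m + 1 [MOD Function.minimalPeriod g y] :=
        ((Nat.modEq_zero_iff_dvd.mpr d1).trans (Nat.modEq_zero_iff_dvd.mpr d2).symm)
      exact Nat.ModEq.add_right_cancel' 1 this
    rw [← hn, ← hm, ← Function.iterate_mod_minimalPeriod_eq (n := n),
      ← Function.iterate_mod_minimalPeriod_eq (n := m), hmod]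
  refine Prod.ext hv ?_
  rw [hv] at h2
  exact adv_inj τ _ h2

lemma good_iff_acyclic (a : W) (f : FC G W) : Good a (none, f) ↔ Acyclic W f := by
  constructor
  · rintro h ⟨n, c, hn, hc, hstep⟩
    have h1 : ∀ i ≤ n, (nx a f)^[i] (some (c 0)) = some (c i) := by
      intro i hi
      induction i with
      | zero => rfl
      | succ i ih =>
        have e := hstep i (by omega)
        rw [Function.iterate_succ_apply', ih (by omega)]
        simp only [nx]
        rw [dif_pos (by rw [← e]; exact (c (i + 1)).2)]
        congr 1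
        exact Subtype.ext e.symm
    have h2 : Function.IsPeriodicPt (nx a f) n (some (c 0)) := by
      change (nx a f)^[n] (some (c 0)) = some (c 0)
      rw [h1 n le_rfl, hc]
    obtain ⟨m, hm⟩ := h (some (c 0))
    rw [← h2.iterate_mod_apply, h1 _ (Nat.mod_lt _ hn).le] at hm
    exact Option.some_ne_none _ hm
  · intro h w
    by_contra hcon
    push Not at hcon
    have hsome : ∀ n, ∃ x : W, (nx a f)^[n] w = some x := fun n =>
      Option.ne_none_iff_exists'.mp (hcon n)
    choose c hc using hsome
    have hc' : ∀ n, (c (n + 1) : V) = (f (c n)).1 := by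
      intro n
      have h1 := hc (n + 1)
      rw [Function.iterate_succ_apply', hc n] at h1
      simp only [nx] at h1
      split_ifs at h1 with h2
      exact (congrArg Subtype.val (Option.some.inj h1)).symm
    obtain ⟨i, j, hij, he⟩ := Finite.exists_ne_map_eq_of_infinite c
    wlog hlt : i < j generalizing i j
    · exact this j i (Ne.symm hij) he.symm (by omega)
    apply h
    refine ⟨j - i, fun k => c (i + k), by omega, ?_, fun k _ => ?_⟩
    · change c (i + (j - i)) = c (i + 0)
      rw [show i + (j - i) = j by omega]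
      exact he.symm
    · exact hc' (i + k)

lemma good_iter (τ : Mech G) (a : W) {s : Option W × FC G W} (hs : Good a s) (n : ℕ) :
    Good a ((st τ a)^[n] s) := by
  induction n with
  | zero => exact hs
  | succ n ih => rw [Function.iterate_succ_apply']; exact good_st τ a ih

lemma st_iter_inj (τ : Mech G) (a : W) (n : ℕ) {s t : Option W × FC G W} (hs : Good a s)
    (ht : Good a t) (h : (st τ a)^[n] s = (st τ a)^[n] t) : s = t := by
  induction n with
  | zero => exact h
  | succ n ih =>
    rw [Function.iterate_succ_apply', Function.iterate_succ_apply'] at h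
    exact ih (st_inj τ a (good_iter τ a hs n) (good_iter τ a ht n) h)

/-- number of visits to `y` before time `t` -/
def vis (τ : Mech G) (a : W) (y : Option W) (t : ℕ) (s : Option W × FC G W) : ℕ :=
  ∑ i ∈ range t, if ((st τ a)^[i] s).1 = y then 1 else 0

lemma vis_zero (τ : Mech G) (a : W) (y : Option W) (s : Option W × FC G W) :
    vis τ a y 0 s = 0 := rfl

lemma vis_succ (τ : Mech G) (a : W) (y : Option W) (t : ℕ) (s : Option W × FC G W) :
    vis τ a y (t + 1) s = vis τ a y t s + if ((st τ a)^[t] s).1 = y then 1 else 0 :=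
  sum_range_succ _ _

lemma vis_add (τ : Mech G) (a : W) (y : Option W) (t r : ℕ) (s : Option W × FC G W) :
    vis τ a y (t + r) s = vis τ a y t s + vis τ a y r ((st τ a)^[t] s) := by
  induction r with
  | zero => simp [vis_zero]
  | succ r ih =>
    rw [← Nat.add_assoc, vis_succ, vis_succ, ih, Nat.add_comm t r, Function.iterate_add_apply]
    ring

variable [G.LocallyFinite]

instance (x : V) : Finite (G.neighborSet x) := by
  infer_instance

/-- acyclic configurations -/
abbrev AC (G : SimpleGraph V) (W : Finset V) := {f : FC G W // Acyclic W f}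

lemma exists_return (τ : Mech G) (a : W) (f : AC G W) :
    ∃ m, 0 < m ∧ ((st τ a)^[m] (none, f.1)).1 = none := by
  have hgood : Good a (none, f.1) := (good_iff_acyclic a f.1).mpr f.2
  let Φ : {s : Option W × FC G W // Good a s} → {s : Option W × FC G W // Good a s} :=
    fun s => ⟨st τ a s.1, good_st τ a s.2⟩
  have hinj : Function.Injective Φ := by
    intro s t hst
    exact Subtype.ext (st_inj τ a s.2 t.2 (congrArg Subtype.val hst))
  have hper := hinj.mem_periodicPts (⟨(none, f.1), hgood⟩ : {s : Option W × FC G W // Good a s})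
  obtain ⟨m, hm, hper⟩ := hper
  have hiter : ∀ n (s : {s : Option W × FC G W // Good a s}),
      (Φ^[n] s).1 = (st τ a)^[n] s.1 := by
    intro n s
    induction n with
    | zero => rfl
    | succ n ih =>
      rw [Function.iterate_succ_apply', Function.iterate_succ_apply', ← ih]
  refine ⟨m, hm, ?_⟩
  have h1 := congrArg Subtype.val (show Φ^[m] ⟨(none, f.1), hgood⟩ = ⟨(none, f.1), hgood⟩ from hper)
  rw [hiter] at h1
  rw [h1]

/-- the return time to the sink -/
noncomputable def rt (τ : Mech G) (a : W) (f : AC G W) : ℕ := Nat.find (exists_return τ a f)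

lemma rt_pos (τ : Mech G) (a : W) (f : AC G W) : 0 < rt τ a f :=
  (Nat.find_spec (exists_return τ a f)).1

lemma rt_none (τ : Mech G) (a : W) (f : AC G W) : ((st τ a)^[rt τ a f] (none, f.1)).1 = none :=
  (Nat.find_spec (exists_return τ a f)).2

lemma rt_min (τ : Mech G) (a : W) (f : AC G W) {m : ℕ} (h0 : 0 < m) (hm : m < rt τ a f) :
    ((st τ a)^[m] (none, f.1)).1 ≠ none := fun h => Nat.find_min (exists_return τ a f) hm ⟨h0, h⟩

/-- one complete excursion -/
noncomputable def TT (τ : Mech G) (a : W) (f : AC G W) : AC G W :=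
  ⟨((st τ a)^[rt τ a f] (none, f.1)).2, by
    rw [← good_iff_acyclic a]
    have h := good_iter τ a ((good_iff_acyclic a f.1).mpr f.2) (rt τ a f)
    have h2 : (st τ a)^[rt τ a f] (none, f.1) = (none, ((st τ a)^[rt τ a f] (none, f.1)).2) :=
      Prod.ext (rt_none τ a f) rfl
    rw [h2] at h
    exact h⟩

lemma st_rt (τ : Mech G) (a : W) (f : AC G W) :
    (st τ a)^[rt τ a f] (none, f.1) = (none, (TT τ a f).1) :=
  Prod.ext (rt_none τ a f) rfl

lemma TT_injective (τ : Mech G) (a : W) : Function.Injective (TT (G := G) τ a) := by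
  intro f g hfg
  wlog hle : rt τ a f ≤ rt τ a g generalizing f g
  · exact (this hfg.symm (by omega)).symm
  have h1 := st_rt τ a f
  have h2 := st_rt τ a g
  rw [hfg, ← h2] at h1
  obtain ⟨k, hk⟩ := Nat.exists_eq_add_of_le hle
  rw [hk, Function.iterate_add_apply] at h1
  have h3 := st_iter_inj τ a (rt τ a f) ((good_iff_acyclic a f.1).mpr f.2)
    (good_iter τ a ((good_iff_acyclic a g.1).mpr g.2) k) h1
  rcases Nat.eq_zero_or_pos k with h0 | h0
  · subst h0
    exact Subtype.ext (congrArg Prod.snd h3)
  · exfalso
    apply rt_min τ a g h0 (by have := rt_pos τ a f; omega)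
    rw [← h3]

lemma vis_rt (τ : Mech G) (a : W) (f : AC G W) : vis τ a none (rt τ a f) (none, f.1) = 1 := by
  unfold vis
  rw [sum_eq_single 0]
  · simp
  · intro i hi hi0
    rw [if_neg]
    exact rt_min τ a f (Nat.pos_of_ne_zero hi0) (by simpa using hi)
  · intro h
    exact absurd (mem_range.mpr (rt_pos τ a f)) h

/-- time of the `n`-th return -/
noncomputable def tn (τ : Mech G) (a : W) (f : AC G W) : ℕ → ℕ
  | 0 => 0
  | n + 1 => tn τ a f n + rt τ a ((TT τ a)^[n] f)

lemma st_tn (τ : Mech G) (a : W) (f : AC G W) (n : ℕ) :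
    (st τ a)^[tn τ a f n] (none, f.1) = (none, ((TT τ a)^[n] f).1) := by
  induction n with
  | zero => rfl
  | succ n ih =>
    rw [tn, Nat.add_comm, Function.iterate_add_apply, ih, st_rt,
      Function.iterate_succ_apply']

lemma vis_tn (τ : Mech G) (a : W) (f : AC G W) (n : ℕ) :
    vis τ a none (tn τ a f n) (none, f.1) = n := by
  induction n with
  | zero => rfl
  | succ n ih =>
    rw [tn, vis_add, ih, st_tn, vis_rt]

/-- visits to `x` during the first `n` excursions -/
noncomputable def od (τ : Mech G) (a : W) (f : AC G W) (n : ℕ) (x : W) : ℕ :=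
  vis τ a (some x) (tn τ a f n) (none, f.1)

end Pool.Agent.Q171.RB
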