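import Pool.Agent.Q171.RB.Energy

/-!
Least action principle for successive infinite rotor walks.
-/

namespace Pool.Agent.Q171.RB

open Finset Filter Topology
open scoped ENNReal

variable {V : Type*} [DecidableEq V] {G : SimpleGraph V} [G.LocallyFinite]

lemma count_eventually (p : ℕ → Prop) [DecidablePred p] (h : {t | p t}.Finite) :
    ∀ᶠ t in atTop, Nat.count p t = {t | p t}.ncard := by
  obtain ⟨B, hB⟩ := h.bddAbove
  filter_upwards [eventually_gt_atTop B] with t ht
  rw [Nat.count_eq_card_filter_range, Set.ncard_eq_toFinset_card _ h]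
  congr 1
  ext i
  simp only [mem_filter, mem_range, Set.Finite.mem_toFinset, Set.mem_ofPred_eq]
  constructor
  · exact fun h => h.2
  · intro hi
    exact ⟨lt_of_le_of_lt (hB hi) ht, hi⟩

lemma finite_of_count (p : ℕ → Prop) [DecidablePred p] (B : ℕ) (h : ∀ t, Nat.count p t ≤ B) :
    {t | p t}.Finite := by
  by_contra hinf
  have h1 := Nat.count_nth_of_infinite (p := p) hinf (B + 1)
  have h2 := h (Nat.nth p (B + 1))
  omega

/-- visits to `y` before time `t` -/
def cv (τ : Mech G) (a : V) (ρ : Cfg G) (t : ℕ) (y : V) : ℕ :=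
  Nat.count (fun i => (walk τ a ρ i).1 = y) t

omit [G.LocallyFinite] in
lemma cv_succ (τ : Mech G) (a : V) (ρ : Cfg G) (t : ℕ) (y : V) :
    cv τ a ρ (t + 1) y = cv τ a ρ t y + if (walk τ a ρ t).1 = y then 1 else 0 :=
  Nat.count_succ _ _

omit [G.LocallyFinite] in
lemma walk_succ (τ : Mech G) (a : V) (ρ : Cfg G) (t : ℕ) :
    walk τ a ρ (t + 1) = step τ (walk τ a ρ t) := by
  simp only [walk, Function.iterate_succ_apply']

omit [G.LocallyFinite] in
lemma walk_rotor (τ : Mech G) (a : V) (ρ : Cfg G) (t : ℕ) (y : V) :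
    (walk τ a ρ t).2 y = (τ y ^ (cv τ a ρ t y)) (ρ y) := by
  induction t with
  | zero => rfl
  | succ t ih =>
    rw [walk_succ, cv_succ]
    simp only [step]
    by_cases h : (walk τ a ρ t).1 = y
    · subst h
      rw [Function.update_self, if_pos rfl, pow_succ', Equiv.Perm.mul_apply, ih]
    · rw [Function.update_of_ne (Ne.symm h), if_neg h, Nat.add_zero, ih]

/-- invariants after `k` successive walks -/
structure Inv (τ : Mech G) (a : V) (ρ : Cfg G) (k : ℕ) (U : V → ℕ) : Prop where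
  tr : ∀ i < k, Transient τ a ((final τ a)^[i] ρ)
  rot : ∀ y, ((final τ a)^[k] ρ) y = (τ y ^ (U y)) (ρ y)
  bal : ∀ y, k * (if y = a then 1 else 0)
    + ∑ z ∈ G.neighborFinset y, cnt τ z (ρ z) y (U z) = U y
  vis : ∀ y, ∑ i ∈ range k, visits τ a ((final τ a)^[i] ρ) y = (U y : ℕ∞)

lemma inv_zero (τ : Mech G) (a : V) (ρ : Cfg G) : Inv τ a ρ 0 (fun _ => 0) := by
  refine ⟨fun i hi => absurd hi (Nat.not_lt_zero _), fun y => rfl, fun y => ?_, fun y => ?_⟩
  · simp [cnt]
  · simp

lemma inv_walk {τ : Mech G} {a : V} {ρ : Cfg G} {k : ℕ} {U : V → ℕ} (hI : Inv τ a ρ k U)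
    (t : ℕ) (y : V) : (walk τ a ((final τ a)^[k] ρ) t).2 y
      = (τ y ^ (U y + cv τ a ((final τ a)^[k] ρ) t y)) (ρ y) := by
  rw [walk_rotor, hI.rot, Nat.add_comm, pow_add, Equiv.Perm.mul_apply]

lemma inv_balance {τ : Mech G} {a : V} {ρ : Cfg G} {k : ℕ} {U : V → ℕ} (hI : Inv τ a ρ k U)
    (t : ℕ) (y : V) :
    (k + 1) * (if y = a then 1 else 0)
      + ∑ z ∈ G.neighborFinset y,
        cnt τ z (ρ z) y (U z + cv τ a ((final τ a)^[k] ρ) t z)
      = U y + cv τ a ((final τ a)^[k] ρ) t y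
        + if (walk τ a ((final τ a)^[k] ρ) t).1 = y then 1 else 0 := by
  set ρk := (final τ a)^[k] ρ with hρk
  induction t with
  | zero =>
    have h1 := hI.bal y
    have h2 : ∀ z, cv τ a ρk 0 z = 0 := fun z => rfl
    simp only [h2, Nat.add_zero]
    have h3 : (if (walk τ a ρk 0).1 = y then 1 else 0) = if y = a then 1 else 0 := by
      have h4 : (walk τ a ρk 0).1 = a := rfl
      rw [h4]
      by_cases h : y = a
      · rw [if_pos h, if_pos h.symm]
      · rw [if_neg h, if_neg (Ne.symm h)]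
    rw [h3, ← h1]
    ring
  | succ t ih =>
    rw [cv_succ, ← Nat.add_assoc, ← ih]
    set X := (walk τ a ρk t).1 with hX
    have hnext : (walk τ a ρk (t + 1)).1 = ((τ X ^ (U X + cv τ a ρk t X + 1)) (ρ X)).1 := by
      rw [walk_succ]
      simp only [step]
      rw [← hX, inv_walk hI t X, pow_succ' (τ X), Equiv.Perm.mul_apply]
    have hz : ∀ z, z ≠ X → cv τ a ρk (t + 1) z = cv τ a ρk t z := by
      intro z hz
      rw [cv_succ, if_neg (Ne.symm hz)]
      rfl
    have hXX : cv τ a ρk (t + 1) X = cv τ a ρk t X + 1 := by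
      rw [cv_succ, if_pos rfl]
    have hsum : ∑ z ∈ G.neighborFinset y, cnt τ z (ρ z) y (U z + cv τ a ρk (t + 1) z)
        = ∑ z ∈ G.neighborFinset y, cnt τ z (ρ z) y (U z + cv τ a ρk t z)
          + if (walk τ a ρk (t + 1)).1 = y then 1 else 0 := by
      by_cases hXy : X ∈ G.neighborFinset y
      · rw [← add_sum_erase _ _ hXy, ← add_sum_erase _ _ hXy, hXX, ← Nat.add_assoc, cnt_succ,
          hnext]
        have : ∑ z ∈ (G.neighborFinset y).erase X, cnt τ z (ρ z) y (U z + cv τ a ρk (t + 1) z)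
            = ∑ z ∈ (G.neighborFinset y).erase X, cnt τ z (ρ z) y (U z + cv τ a ρk t z) := by
          refine sum_congr rfl fun z hz' => ?_
          rw [hz z (ne_of_mem_erase hz')]
        rw [this]
        ring
      · have h1 : ¬ (walk τ a ρk (t + 1)).1 = y := by
          intro h
          apply hXy
          rw [G.mem_neighborFinset]
          have h2 := ((τ X ^ (U X + cv τ a ρk t X + 1)) (ρ X)).2
          rw [← hnext, h] at h2
          exact (show G.Adj X y from h2).symm
        rw [if_neg h1, Nat.add_zero]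
        refine sum_congr rfl fun z hz' => ?_
        rw [hz z]
        rintro rfl
        exact hXy hz'
    rw [hsum]
    ring

lemma inv_bound {τ : Mech G} {a : V} {ρ : Cfg G} {k n : ℕ} {U v : V → ℕ} (hI : Inv τ a ρ k U)
    (hkn : k < n) (hUv : ∀ y, U y ≤ v y)
    (hv : ∀ y, n * (if y = a then 1 else 0)
      + ∑ z ∈ G.neighborFinset y, cnt τ z (ρ z) y (v z) ≤ v y) (t : ℕ) (y : V) :
    U y + cv τ a ((final τ a)^[k] ρ) t y ≤ v y := by
  induction t generalizing y with
  | zero => exact hUv y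
  | succ t ih =>
    by_cases hX : (walk τ a ((final τ a)^[k] ρ) t).1 = y
    · have hb := inv_balance hI t y
      rw [if_pos hX] at hb
      rw [cv_succ, if_pos hX, ← Nat.add_assoc, ← hb]
      refine le_trans (Nat.add_le_add ?_ ?_) (hv y)
      · exact Nat.mul_le_mul_right _ hkn
      · exact sum_le_sum fun z _ => cnt_mono τ z (ρ z) y (ih z)
    · rw [cv_succ, if_neg hX, Nat.add_zero]
      exact ih y

lemma final_eventually {τ : Mech G} {a : V} {ρ : Cfg G} {y : V} {r : G.neighborSet y}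
    (h : ∀ᶠ t in atTop, (walk τ a ρ t).2 y = r) : final τ a ρ y = r := by
  have hex : ∃ r : G.neighborSet y, ∀ᶠ t in atTop, (walk τ a ρ t).2 y = r := ⟨r, h⟩
  unfold final
  rw [dif_pos hex]
  obtain ⟨t, h1, h2⟩ := (hex.choose_spec.and h).exists
  rw [← h1, h2]

lemma inv_succ {τ : Mech G} {a : V} {ρ : Cfg G} {k n : ℕ} {U v : V → ℕ} (hI : Inv τ a ρ k U)
    (hkn : k < n) (hUv : ∀ y, U y ≤ v y)
    (hv : ∀ y, n * (if y = a then 1 else 0)
      + ∑ z ∈ G.neighborFinset y, cnt τ z (ρ z) y (v z) ≤ v y) :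
    ∃ U' : V → ℕ, Inv τ a ρ (k + 1) U' ∧ ∀ y, U' y ≤ v y := by
  have hb := inv_bound hI hkn hUv hv
  set ρk := (final τ a)^[k] ρ with hρk
  have hfin : ∀ y, {t | (walk τ a ρk t).1 = y}.Finite := by
    intro y
    apply finite_of_count (fun t => (walk τ a ρk t).1 = y) (v y)
    intro t
    have := hb t y
    have e : cv τ a ρk t y = Nat.count (fun t => (walk τ a ρk t).1 = y) t := rfl
    omega
  set N : V → ℕ := fun y => {t | (walk τ a ρk t).1 = y}.ncard with hN
  have hev : ∀ y, ∀ᶠ t in atTop, cv τ a ρk t y = N y := fun y =>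
    count_eventually _ (hfin y)
  have hne : ∀ y, ∀ᶠ t in atTop, (walk τ a ρk t).1 ≠ y := by
    intro y
    rw [← Nat.cofinite_eq_atTop]
    exact (hfin y).eventually_cofinite_notMem
  refine ⟨fun y => U y + N y, ⟨?_, ?_, ?_, ?_⟩, ?_⟩
  · intro i hi
    rcases Nat.lt_succ_iff_lt_or_eq.mp hi with h | h
    · exact hI.tr i h
    · rw [h]
      exact hfin
  · intro y
    rw [Function.iterate_succ_apply', ← hρk]
    apply final_eventually
    filter_upwards [hev y] with t ht
    rw [inv_walk hI t y, ← hρk, ht]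
  · intro y
    have h1 : ∀ᶠ t in atTop, ∀ z ∈ G.neighborFinset y, cv τ a ρk t z = N z :=
      (eventually_all_finset _).mpr fun z _ => hev z
    obtain ⟨t, h2, h3, h4⟩ := (h1.and ((hev y).and (hne y))).exists
    have h5 := inv_balance hI t y
    have h6 : ∑ z ∈ G.neighborFinset y, cnt τ z (ρ z) y (U z + cv τ a ρk t z)
        = ∑ z ∈ G.neighborFinset y, cnt τ z (ρ z) y (U z + N z) :=
      sum_congr rfl fun z hz => by rw [h2 z hz]
    rw [← hρk, if_neg h4, h3, h6] at h5
    exact h5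
  · intro y
    rw [sum_range_succ, hI.vis, ← hρk]
    simp only [visits, hN]
    rw [← Set.Finite.cast_ncard_eq (hfin y)]
    push_cast
    rfl
  · intro y
    obtain ⟨t, ht⟩ := (hev y).exists
    have := hb t y
    rw [ht] at this
    exact this

/-- upper bound for `S_n` by any stabilizing odometer -/
theorem S_le (τ : Mech G) (a : V) (ρ : Cfg G) (n : ℕ) (v : V → ℕ)
    (hv : ∀ y, n * (if y = a then 1 else 0)
      + ∑ z ∈ G.neighborFinset y, cnt τ z (ρ z) y (v z) ≤ v y) (x : V) :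
    S τ a n ρ x ≤ (v x : ℝ≥0∞) := by
  have key : ∀ k ≤ n, ∃ U : V → ℕ, Inv τ a ρ k U ∧ ∀ y, U y ≤ v y := by
    intro k
    induction k with
    | zero => exact fun _ => ⟨_, inv_zero τ a ρ, fun y => Nat.zero_le _⟩
    | succ k ih =>
      intro hk
      obtain ⟨U, hI, hU⟩ := ih (by omega)
      exact inv_succ hI (by omega) hU hv
  obtain ⟨U, hI, hU⟩ := key n le_rfl
  unfold S
  rw [if_pos hI.tr]
  have h1 : ∑ i ∈ range n, (visits τ a ((final τ a)^[i] ρ) x : ℝ≥0∞)
      = ((∑ i ∈ range n, visits τ a ((final τ a)^[i] ρ) x : ℕ∞) : ℝ≥0∞) := by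
    exact (map_sum ENat.toENNRealRingHom _ _).symm
  rw [h1, hI.vis]
  simp only [ENat.toENNReal_coe]
  exact_mod_cast hU x

end Pool.Agent.Q171.RB
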