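import Pool.Agent.Q171.RB.Bound
import Pool.Agent.Q171.RB.Inf

/-!
Almost sure Schramm bound.
-/

namespace Pool.Agent.Q171.RB

open Finset Filter Topology MeasureTheory
open scoped ENNReal

variable {V : Type*} [DecidableEq V] {G : SimpleGraph V} [G.LocallyFinite]

/-- restriction of a configuration -/
def rs (W : Finset V) (ρ : Cfg G) : FC G W := fun x => ρ x.1

/-- restriction of a finite configuration -/
def rf {W W' : Finset V} (h : W' ⊆ W) (f : FC G W) : FC G W' := fun x => f ⟨x.1, h x.2⟩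

open Classical in
/-- Passing to the limit. -/
lemma prob_le {P : Measure (Cfg G)} [hP : IsProbabilityMeasure P] {W : ℕ → Finset V}
    (hmono : Monotone W)
    (hlim : ∀ (B : Finset V) (q : Cfg G),
      Tendsto (fun R => (forests (W R) B q : ℝ) / (forests (W R) ∅ q : ℝ)) atTop
        (𝓝 (P.real {ρ | ∀ x ∈ B, ρ x = q x}))) (R0 : ℕ) (Q : Set (FC G (W R0))) {δ : ℝ}
    (hQ : ∃ R', ∀ R, R' ≤ R → ∀ h : W R0 ⊆ W R,
      (((univ : Finset (AC G (W R))).filter (fun f => rf h f.1 ∈ Q)).card : ℝ)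
        ≤ δ * Fintype.card (AC G (W R))) :
    P.real {ρ | rs (W R0) ρ ∈ Q} ≤ δ := by
  have hne : Nonempty (Cfg G) := by
    by_contra hn
    rw [not_nonempty_iff] at hn
    have := hP.measure_univ
    rw [Set.univ_eq_empty_iff.mpr hn, measure_empty] at this
    exact zero_ne_one this
  obtain ⟨ρ0⟩ := hne
  let ext : FC G (W R0) → Cfg G := fun q x => if h : x ∈ W R0 then q ⟨x, h⟩ else ρ0 x
  have hfin : Fintype (FC G (W R0)) := Fintype.ofFinite _
  set Q' : Finset (FC G (W R0)) := univ.filter (fun q => q ∈ Q) with hQ'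
  have hsub : {ρ : Cfg G | rs (W R0) ρ ∈ Q}
      ⊆ ⋃ q ∈ Q', {ρ | ∀ x ∈ W R0, ρ x = ext q x} := by
    intro ρ hρ
    simp only [Set.mem_iUnion]
    refine ⟨rs (W R0) ρ, by simpa [hQ'] using hρ, ?_⟩
    intro x hx
    simp [ext, hx, rs]
  have h1 : P.real {ρ | rs (W R0) ρ ∈ Q} ≤ ∑ q ∈ Q', P.real {ρ | ∀ x ∈ W R0, ρ x = ext q x} :=
    (measureReal_mono hsub (measure_ne_top P _)).trans (measureReal_biUnion_finset_le _ _)
  refine h1.trans ?_
  have h2 : Tendsto (fun R => ∑ q ∈ Q', (forests (W R) (W R0) (ext q) : ℝ)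
      / (forests (W R) ∅ (ext q) : ℝ)) atTop
      (𝓝 (∑ q ∈ Q', P.real {ρ | ∀ x ∈ W R0, ρ x = ext q x})) :=
    tendsto_finsetSum _ fun q _ => hlim (W R0) (ext q)
  obtain ⟨R', hR'⟩ := hQ
  have hpos : ∀ᶠ R in atTop, (forests (W R) ∅ ρ0 : ℝ) ≠ 0 := by
    have h3 := hlim ∅ ρ0
    have h4 : P.real {ρ : Cfg G | ∀ x ∈ (∅ : Finset V), ρ x = ρ0 x} = 1 := by simp
    rw [h4] at h3
    filter_upwards [h3.eventually (lt_mem_nhds (show (0 : ℝ) < 1 by norm_num))] with R hR h0
    rw [h0, div_zero] at hR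
    exact lt_irrefl _ hR
  apply le_of_tendsto h2
  filter_upwards [eventually_ge_atTop R', eventually_ge_atTop R0, hpos] with R hR hRR0 hne
  have hsubW := hmono hRR0
  have hempty : ∀ q : Cfg G, forests (W R) ∅ q = Fintype.card (AC G (W R)) := by
    intro q
    rw [← Nat.card_eq_fintype_card]
    unfold forests
    apply Nat.card_congr
    exact Equiv.subtypeEquivRight fun f => by simp
  simp only [hempty]
  rw [← sum_div]
  rw [hempty] at hne
  have hcpos : (0 : ℝ) < Fintype.card (AC G (W R)) :=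
    lt_of_le_of_ne (Nat.cast_nonneg _) (Ne.symm hne)
  rw [div_le_iff₀ hcpos]
  refine le_trans ?_ (hR' R hR hsubW)
  have h5 : ∑ q ∈ Q', forests (W R) (W R0) (ext q)
      ≤ ((univ : Finset (AC G (W R))).filter (fun f => rf hsubW f.1 ∈ Q)).card := by
    have h6 : ∀ q ∈ Q', forests (W R) (W R0) (ext q)
        = ((univ : Finset (AC G (W R))).filter (fun f => rf hsubW f.1 = q)).card := by
      intro q _
      rw [← Fintype.card_subtype, ← Nat.card_eq_fintype_card]
      unfold forests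
      refine Nat.card_congr ((Equiv.subtypeSubtypeEquivSubtypeInter _ _).symm.trans ?_)
      refine Equiv.subtypeEquivRight fun f => ?_
      constructor
      · intro h
        ext1 x
        obtain ⟨h1, h2⟩ := h x.1 x.2
        have h3 : ext q x.1 = q x := by simp [ext]
        rw [← h3, ← h2]
        rfl
      · intro h x hx
        refine ⟨hsubW hx, ?_⟩
        have h3 : ext q x = q ⟨x, hx⟩ := by simp [ext, hx]
        rw [h3, ← h]
        rfl
    have h7 : ∀ q ∈ Q', ((univ : Finset (AC G (W R))).filter (fun f => rf hsubW f.1 = q)).card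
        = (((univ : Finset (AC G (W R))).filter (fun f => rf hsubW f.1 ∈ Q)).filter
          (fun f => rf hsubW f.1 = q)).card := by
      intro q hq
      rw [filter_filter]
      congr 1
      apply filter_congr
      intro f _
      constructor
      · intro h
        refine ⟨?_, h⟩
        rw [h]
        simpa [hQ'] using hq
      · exact fun h => h.2
    rw [sum_congr rfl h6, sum_congr rfl h7,
      ← card_eq_sum_card_fiberwise (f := fun f : AC G (W R) => rf hsubW f.1)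
      (s := (univ : Finset (AC G (W R))).filter (fun f => rf hsubW f.1 ∈ Q)) (t := Q')]
    intro f hf
    simpa [hQ'] using hf
  exact_mod_cast h5

lemma card_filter_eq {Ω : Type*} [Fintype Ω] (p : Ω → Prop) (inst : DecidablePred p) :
    ((univ : Finset Ω).filter p).card = Nat.card {f // p f} := by
  rw [Nat.card_eq_fintype_card, Fintype.card_subtype]

lemma prob_le' {P : Measure (Cfg G)} [hP : IsProbabilityMeasure P] {W : ℕ → Finset V}
    (hmono : Monotone W)
    (hlim : ∀ (B : Finset V) (q : Cfg G),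
      Tendsto (fun R => (forests (W R) B q : ℝ) / (forests (W R) ∅ q : ℝ)) atTop
        (𝓝 (P.real {ρ | ∀ x ∈ B, ρ x = q x}))) (R0 : ℕ) (Q : Set (FC G (W R0))) {δ : ℝ}
    (hQ : ∃ R', ∀ R, R' ≤ R → ∀ h : W R0 ⊆ W R,
      (Nat.card {f : AC G (W R) // rf h f.1 ∈ Q} : ℝ)
        ≤ δ * Fintype.card (AC G (W R))) :
    P.real {ρ | rs (W R0) ρ ∈ Q} ≤ δ := by
  apply prob_le hmono hlim
  obtain ⟨R', hR'⟩ := hQ
  refine ⟨R', fun R hR h => ?_⟩
  rw [card_filter_eq]
  exact hR' R hR h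

lemma finite_bound' (τ : Mech G) (hτ : SingleOrbit τ) {W : ℕ → Finset V} (hmono : Monotone W)
    (hex : ∀ x, ∃ R, x ∈ W R) {a : V} (ha : ∀ R, a ∈ W R) (x : V)
    (hfin : ∀ y, green G y x ≠ ⊤) {ε δ : ℝ} (hε : 0 < ε) (hδ : 0 < δ) :
    ∃ m : ℕ, 1 ≤ m ∧ ∃ R' : ℕ, ∀ R, R' ≤ R → ∀ K : ℕ,
      (Nat.card {f : AC G (W R) // ∃ k : ℕ, 1 ≤ k ∧ k ≤ K ∧
        ((green G a x).toReal + ε) * ((k * m : ℕ) : ℝ) < oV τ a (W R) (ha R) f (k * m) x} : ℝ)
      ≤ δ * Fintype.card (AC G (W R)) := by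
  obtain ⟨m, hm, R', hR'⟩ := finite_bound τ hτ hmono hex ha x hfin hε hδ
  refine ⟨m, hm, R', fun R hR K => ?_⟩
  have := hR' R hR K
  rw [card_filter_eq] at this
  exact this

lemma acyclic_ae {P : Measure (Cfg G)} [hP : IsProbabilityMeasure P] {W : ℕ → Finset V}
    (hmono : Monotone W)
    (hlim : ∀ (B : Finset V) (q : Cfg G),
      Tendsto (fun R => (forests (W R) B q : ℝ) / (forests (W R) ∅ q : ℝ)) atTop
        (𝓝 (P.real {ρ | ∀ x ∈ B, ρ x = q x}))) :
    ∀ᵐ ρ ∂P, ∀ R, Acyclic (W R) (rs (W R) ρ) := by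
  classical
  rw [ae_all_iff]
  intro R0
  have h1 := prob_le' (P := P) hmono hlim R0 {q | ¬ Acyclic (W R0) q} (δ := 0)
    ⟨R0, fun R hR h => by
      rw [zero_mul]
      have : IsEmpty {f : AC G (W R) // rf h f.1 ∈ {q | ¬ Acyclic (W R0) q}} :=
        ⟨fun f => f.2 (res h f.1).2⟩
      rw [Nat.card_of_isEmpty]
      simp⟩
  have h2 : P.real {ρ | rs (W R0) ρ ∈ {q | ¬ Acyclic (W R0) q}} = 0 :=
    le_antisymm h1 measureReal_nonneg
  rw [measureReal_eq_zero_iff] at h2
  exact h2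

lemma good_ae (τ : Mech G) (hτ : SingleOrbit τ) {P : Measure (Cfg G)}
    [hP : IsProbabilityMeasure P] {W : ℕ → Finset V}
    (hmono : Monotone W) (hex : ∀ x, ∃ R, x ∈ W R) {a : V} (ha : ∀ R, a ∈ W R)
    (hlim : ∀ (B : Finset V) (q : Cfg G),
      Tendsto (fun R => (forests (W R) B q : ℝ) / (forests (W R) ∅ q : ℝ)) atTop
        (𝓝 (P.real {ρ | ∀ x ∈ B, ρ x = q x}))) (x : V) (hfin : ∀ y, green G y x ≠ ⊤)
    {ε : ℝ} (hε : 0 < ε) :
    ∀ᵐ ρ ∂P, ∀ hac : (∀ R, Acyclic (W R) (rs (W R) ρ)), ∃ m : ℕ, 1 ≤ m ∧ ∀ R k : ℕ, 1 ≤ k →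
      (oV τ a (W R) (ha R) ⟨rs (W R) ρ, hac R⟩ (k * m) x : ℝ)
        ≤ ((green G a x).toReal + ε) * ((k * m : ℕ) : ℝ) := by
  classical
  rw [ae_iff]
  set bad : Set (Cfg G) := {ρ | ¬ ∀ hac : (∀ R, Acyclic (W R) (rs (W R) ρ)), ∃ m : ℕ, 1 ≤ m ∧
      ∀ R k : ℕ, 1 ≤ k → (oV τ a (W R) (ha R) ⟨rs (W R) ρ, hac R⟩ (k * m) x : ℝ)
        ≤ ((green G a x).toReal + ε) * ((k * m : ℕ) : ℝ)} with hbad
  have key : ∀ δ : ℝ, 0 < δ → P bad ≤ ENNReal.ofReal δ := by
    intro δ hδ
    obtain ⟨m, hm, R', hR'⟩ := finite_bound' τ hτ hmono hex ha x hfin hε hδ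
    set A : ℕ → Set (Cfg G) := fun j => {ρ | ∃ hac : (∀ R, Acyclic (W R) (rs (W R) ρ)),
      ∃ k : ℕ, 1 ≤ k ∧ k ≤ j ∧ ((green G a x).toReal + ε) * ((k * m : ℕ) : ℝ)
        < oV τ a (W j) (ha j) ⟨rs (W j) ρ, hac j⟩ (k * m) x} with hA
    have hAmono : Monotone A := by
      intro j j' hjj' ρ hρ
      obtain ⟨hac, k, hk1, hk2, hk3⟩ := hρ
      refine ⟨hac, k, hk1, hk2.trans hjj', hk3.trans_le ?_⟩
      have := oV_mono τ a (hmono hjj') (ha j) (ha j') ⟨rs (W j') ρ, hac j'⟩ (k * m) x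
      exact_mod_cast this
    have hAle : ∀ j, P (A j) ≤ ENNReal.ofReal δ := by
      intro j
      have h1 := prob_le' (P := P) hmono hlim j
        {q : FC G (W j) | ∃ h : Acyclic (W j) q, ∃ k : ℕ, 1 ≤ k ∧ k ≤ j ∧
          ((green G a x).toReal + ε) * ((k * m : ℕ) : ℝ)
            < oV τ a (W j) (ha j) ⟨q, h⟩ (k * m) x} (δ := δ)
        ⟨R', fun R hR h => by
          refine le_trans ?_ (hR' R hR j)
          have : Nat.card {f : AC G (W R) // rf h f.1 ∈
              {q : FC G (W j) | ∃ h : Acyclic (W j) q, ∃ k : ℕ, 1 ≤ k ∧ k ≤ j ∧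
              ((green G a x).toReal + ε) * ((k * m : ℕ) : ℝ)
                < oV τ a (W j) (ha j) ⟨q, h⟩ (k * m) x}}
              ≤ Nat.card {f : AC G (W R) // ∃ k : ℕ, 1 ≤ k ∧ k ≤ j ∧
                ((green G a x).toReal + ε) * ((k * m : ℕ) : ℝ)
                  < oV τ a (W R) (ha R) f (k * m) x} := by
            refine Nat.card_le_card_of_injective (fun f => ⟨f.1, ?_⟩) ?_
            · obtain ⟨hac, k, hk1, hk2, hk3⟩ := f.2
              refine ⟨k, hk1, hk2, hk3.trans_le ?_⟩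
              have := oV_mono τ a h (ha j) (ha R) f.1 (k * m) x
              exact_mod_cast this
            · intro f g hfg
              apply Subtype.ext
              exact Subtype.mk.inj hfg
          exact_mod_cast this⟩
      have h2 : A j ⊆ {ρ | rs (W j) ρ ∈ {q : FC G (W j) | ∃ h : Acyclic (W j) q, ∃ k : ℕ,
          1 ≤ k ∧ k ≤ j ∧ ((green G a x).toReal + ε) * ((k * m : ℕ) : ℝ)
            < oV τ a (W j) (ha j) ⟨q, h⟩ (k * m) x}} := by
        rintro ρ ⟨hac, hk⟩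
        exact ⟨hac j, hk⟩
      refine (measure_mono h2).trans ?_
      rw [← ofReal_measureReal (measure_ne_top P _)]
      exact ENNReal.ofReal_le_ofReal h1
    have hsub : bad ⊆ ⋃ j, A j := by
      intro ρ hρ
      simp only [hbad, Set.mem_ofPred_eq, not_forall, not_exists, not_and, not_le] at hρ
      obtain ⟨hac, hρ⟩ := hρ
      obtain ⟨R, k, hk1, hk⟩ := hρ m hm
      rw [Set.mem_iUnion]
      refine ⟨max R k, hac, k, hk1, le_max_right _ _, hk.trans_le ?_⟩
      have := oV_mono τ a (hmono (le_max_left R k)) (ha R) (ha (max R k))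
        ⟨rs (W (max R k)) ρ, hac (max R k)⟩ (k * m) x
      exact_mod_cast this
    refine (measure_mono hsub).trans ?_
    rw [hAmono.measure_iUnion]
    exact iSup_le hAle
  apply le_antisymm _ (zero_le)
  have h1 : Tendsto (fun j : ℕ => ENNReal.ofReal (1 / ((j : ℝ) + 1))) atTop
      (𝓝 (ENNReal.ofReal 0)) :=
    (ENNReal.continuous_ofReal.tendsto 0).comp tendsto_one_div_add_atTop_nhds_zero_nat
  rw [ENNReal.ofReal_zero] at h1
  exact ge_of_tendsto' h1 fun j => key _ (by positivity)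

lemma eventually_const_of_bdd {f : ℕ → ℕ} (hf : Monotone f) {B : ℕ} (hB : ∀ n, f n ≤ B) :
    ∃ v, (∀ᶠ n in atTop, f n = v) := by
  have hfin : (Set.range f).Finite := (Set.finite_Iic B).subset (by
    rintro _ ⟨n, rfl⟩
    exact hB n)
  obtain ⟨v, ⟨n0, hn0⟩, hv⟩ := hfin.exists_maximal (Set.range_nonempty f)
  refine ⟨v, ?_⟩
  filter_upwards [eventually_ge_atTop n0] with n hn
  have h1 : v ≤ f n := hn0 ▸ hf hn
  exact le_antisymm (hv ⟨n, rfl⟩ h1) h1

/-- deterministic conclusion -/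
lemma conclude (τ : Mech G) {W : ℕ → Finset V}
    (hmono : Monotone W) (hex : ∀ x, ∃ R, x ∈ W R) {a : V} (ha : ∀ R, a ∈ W R) {ρ : Cfg G}
    (hac : ∀ R, Acyclic (W R) (rs (W R) ρ))
    (H : ∀ (x : V) (j : ℕ), ∃ m : ℕ, 1 ≤ m ∧ ∀ R k : ℕ, 1 ≤ k →
      (oV τ a (W R) (ha R) ⟨rs (W R) ρ, hac R⟩ (k * m) x : ℝ)
        ≤ ((green G a x).toReal + 1 / ((j : ℝ) + 1)) * ((k * m : ℕ) : ℝ)) (x : V)
    (hx : green G a x ≠ ⊤) :
    limsup (fun n : ℕ => S τ a n ρ x / (n : ℝ≥0∞)) atTop ≤ green G a x := by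
  set o : ℕ → ℕ → V → ℕ := fun R n y => oV τ a (W R) (ha R) ⟨rs (W R) ρ, hac R⟩ n y with ho
  have hoR : ∀ n y, Monotone (fun R => o R n y) := by
    intro n y R R' hRR'
    exact oV_mono τ a (hmono hRR') (ha R) (ha R') ⟨rs (W R') ρ, hac R'⟩ n y
  have hon : ∀ R y, Monotone (fun n => o R n y) := fun R y => oV_mono_n τ a (W R) (ha R) _ y
  have hbd : ∀ n y, ∃ B, ∀ R, o R n y ≤ B := by
    intro n y
    obtain ⟨m, hm, hH⟩ := H y 0
    refine ⟨⌊((green G a y).toReal + 1 / (((0 : ℕ) : ℝ) + 1)) * (((n + 1) * m : ℕ) : ℝ)⌋₊,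
      fun R => ?_⟩
    apply Nat.le_floor
    refine le_trans ?_ (hH R (n + 1) (by omega))
    have h1 : o R n y ≤ o R ((n + 1) * m) y := hon R y (by nlinarith)
    exact_mod_cast h1
  have hv : ∀ n y, ∃ v, ∀ᶠ R in atTop, o R n y = v := by
    intro n y
    obtain ⟨B, hB⟩ := hbd n y
    exact eventually_const_of_bdd (hoR n y) hB
  choose v hv using hv
  have hmem : ∀ y, ∀ᶠ R in atTop, y ∈ W R := by
    intro y
    obtain ⟨R, hR⟩ := hex y
    filter_upwards [eventually_ge_atTop R] with R' h using hmono h hR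
  have hS : ∀ n, S τ a n ρ x ≤ (v n x : ℝ≥0∞) := by
    intro n
    apply S_le
    intro y
    have h1 : ∀ᶠ R in atTop, ∀ z ∈ G.neighborFinset y, o R n z = v n z ∧ z ∈ W R :=
      (eventually_all_finset _).mpr fun z _ => (hv n z).and (hmem z)
    obtain ⟨R, h2, h3, h4⟩ := (h1.and ((hv n y).and (hmem y))).exists
    have h5 := od_balance τ (⟨a, ha R⟩ : W R) ⟨rs (W R) ρ, hac R⟩ n ⟨y, h4⟩
    have h6 : od τ (⟨a, ha R⟩ : W R) ⟨rs (W R) ρ, hac R⟩ n ⟨y, h4⟩ = v n y := by
      rw [← h3]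
      exact (oV_in τ a (W R) (ha R) _ n h4).symm
    rw [h6] at h5
    rw [← h5]
    have h7 : (if (⟨y, h4⟩ : W R) = ⟨a, ha R⟩ then 1 else 0) = if y = a then 1 else 0 := by
      simp only [Subtype.ext_iff]
    rw [h7]
    apply Nat.add_le_add_left
    have h8 : ∑ z : W R, cnt τ z.1 ((⟨rs (W R) ρ, hac R⟩ : AC G (W R)).1 z) y
        (od τ (⟨a, ha R⟩ : W R) ⟨rs (W R) ρ, hac R⟩ n z)
        = ∑ z ∈ W R, cnt τ z (ρ z) y (o R n z) := by
      rw [← sum_coe_sort (W R) (fun z => cnt τ z (ρ z) y (o R n z))]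
      refine sum_congr rfl fun z _ => ?_
      have h9 : o R n z.1 = od τ (⟨a, ha R⟩ : W R) ⟨rs (W R) ρ, hac R⟩ n z :=
        oV_in τ a (W R) (ha R) _ n z.2
      rw [h9]
      rfl
    rw [h8]
    have h10 : ∑ z ∈ G.neighborFinset y, cnt τ z (ρ z) y (v n z)
        = ∑ z ∈ G.neighborFinset y, cnt τ z (ρ z) y (o R n z) :=
      sum_congr rfl fun z hz => by rw [(h2 z hz).1]
    rw [h10]
    exact sum_le_sum_of_subset fun z hz => (h2 z hz).2
  -- bound for every `j`
  have key : ∀ j : ℕ, limsup (fun n : ℕ => S τ a n ρ x / (n : ℝ≥0∞)) atTop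
      ≤ ENNReal.ofReal ((green G a x).toReal + 1 / ((j : ℝ) + 1)) := by
    intro j
    obtain ⟨m, hm, hH⟩ := H x j
    set c := (green G a x).toReal + 1 / ((j : ℝ) + 1) with hc
    have hc0 : 0 ≤ c := by positivity
    have h1 : ∀ n, 1 ≤ n → S τ a n ρ x / (n : ℝ≥0∞) ≤ ENNReal.ofReal (c * (1 + m / n)) := by
      intro n hn
      have hn0 : (0 : ℝ) < n := by exact_mod_cast hn
      obtain ⟨R, hR⟩ := (hv n x).exists
      have h2 : v n x ≤ o R ((n / m + 1) * m) x := by
        rw [← hR]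
        apply hon R x
        have h0 : 0 < m := by omega
        have := Nat.lt_div_mul_add (a := n) (b := m) h0
        nlinarith
      have h3 : (v n x : ℝ) ≤ c * (((n / m + 1) * m : ℕ) : ℝ) := by
        refine le_trans ?_ (hH R (n / m + 1) (Nat.le_add_left 1 _))
        exact_mod_cast h2
      have h4 : (((n / m + 1) * m : ℕ) : ℝ) ≤ n + m := by
        have : (n / m + 1) * m ≤ n + m := by
          have := Nat.div_mul_le_self n m
          nlinarith
        exact_mod_cast this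
      have h5 : (v n x : ℝ) ≤ c * (1 + m / n) * n := by
        have : c * (1 + m / n) * n = c * (n + m) := by field_simp
        rw [this]
        exact h3.trans (mul_le_mul_of_nonneg_left h4 hc0)
      have hn' : (n : ℝ≥0∞) ≠ 0 := by
        have : n ≠ 0 := by omega
        exact_mod_cast this
      rw [ENNReal.div_le_iff hn' (ENNReal.natCast_ne_top n)]
      refine (hS n).trans ?_
      have e1 : (n : ℝ≥0∞) = ENNReal.ofReal (n : ℝ) := by simp
      have e2 : (v n x : ℝ≥0∞) = ENNReal.ofReal (v n x : ℝ) := by simp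
      rw [e1, e2, ← ENNReal.ofReal_mul (by positivity)]
      exact ENNReal.ofReal_le_ofReal h5
    have h2 : Tendsto (fun n : ℕ => ENNReal.ofReal (c * (1 + m / n))) atTop
        (𝓝 (ENNReal.ofReal (c * (1 + 0)))) := by
      apply (ENNReal.continuous_ofReal.tendsto _).comp
      apply Tendsto.const_mul
      apply Tendsto.const_add
      exact tendsto_const_div_atTop_nhds_zero_nat (m : ℝ)
    rw [add_zero, mul_one] at h2
    rw [← h2.limsup_eq]
    apply limsup_le_limsup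
    · filter_upwards [eventually_ge_atTop 1] with n hn using h1 n hn
    · isBoundedDefault
    · isBoundedDefault
  have h1 : Tendsto (fun j : ℕ => ENNReal.ofReal ((green G a x).toReal + 1 / ((j : ℝ) + 1))) atTop
      (𝓝 (ENNReal.ofReal ((green G a x).toReal + 0))) :=
    (ENNReal.continuous_ofReal.tendsto _).comp
      (tendsto_const_nhds.add tendsto_one_div_add_atTop_nhds_zero_nat)
  rw [add_zero, ENNReal.ofReal_toReal hx] at h1
  exact ge_of_tendsto' h1 key

/-- The almost sure Schramm bound. -/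
theorem schramm (hG : G.Connected) (τ : Mech G) (hτ : SingleOrbit τ) (a : V)
    {P : Measure (Cfg G)} (hP : IsOWUSF P) :
    ∀ᵐ ρ ∂P, ∀ x, limsup (fun n : ℕ => S τ a n ρ x / (n : ℝ≥0∞)) atTop ≤ green G a x := by
  by_cases htop : ∃ x, green G a x = ⊤
  · have hall : ∀ x, green G a x = ⊤ := by
      obtain ⟨x0, hx0⟩ := htop
      intro x
      by_contra h
      exact green_all G hG h a x0 hx0
    refine Eventually.of_forall fun ρ x => ?_
    rw [hall x]
    exact le_top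
  · push Not at htop
    have hfin : ∀ y z, green G y z ≠ ⊤ := fun y z => green_all G hG (htop a) y z
    have hPr := hP.prob
    obtain ⟨W0, hmono0, hex0, hlim0⟩ := hP.lim
    obtain ⟨Ra, hRa⟩ := hex0 a
    set W : ℕ → Finset V := fun R => W0 (R + Ra) with hW
    have hmono : Monotone W := fun R R' h => hmono0 (by omega)
    have ha : ∀ R, a ∈ W R := fun R => hmono0 (Nat.le_add_left Ra R) hRa
    have hex : ∀ x, ∃ R, x ∈ W R := by
      intro x
      obtain ⟨R, hR⟩ := hex0 x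
      exact ⟨R, hmono0 (Nat.le_add_right R Ra) hR⟩
    have hlim : ∀ (B : Finset V) (q : Cfg G),
        Tendsto (fun R => (forests (W R) B q : ℝ) / (forests (W R) ∅ q : ℝ)) atTop
        (𝓝 (P.real {ρ | ∀ x ∈ B, ρ x = q x})) := fun B q =>
      (hlim0 B q).comp (tendsto_add_atTop_nat Ra)
    have hcount : Countable V := by
      rw [← Set.countable_univ_iff]
      have : (Set.univ : Set V) = ⋃ R, (W R : Set V) := by
        ext x
        simpa using hex x
      rw [this]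
      exact Set.countable_iUnion fun R => (W R).countable_toSet
    have h1 : ∀ᵐ ρ ∂P, ∀ (x : V) (j : ℕ), ∀ hac : (∀ R, Acyclic (W R) (rs (W R) ρ)),
        ∃ m : ℕ, 1 ≤ m ∧ ∀ R k : ℕ, 1 ≤ k →
        (oV τ a (W R) (ha R) ⟨rs (W R) ρ, hac R⟩ (k * m) x : ℝ)
        ≤ ((green G a x).toReal + 1 / ((j : ℝ) + 1)) * ((k * m : ℕ) : ℝ) := by
      rw [ae_all_iff]
      intro x
      rw [ae_all_iff]
      intro j
      exact good_ae τ hτ hmono hex ha hlim x (fun y => hfin y x) (by positivity)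
    filter_upwards [acyclic_ae hmono hlim, h1] with ρ hac hρ x
    exact conclude τ hmono hex ha hac (fun x j => hρ x j hac) x (htop x)

end Pool.Agent.Q171.RB
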